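import Pool.Agent.Helper20.NB.LocalN

/-! # Cases A and C for a class of affine maps -/

open Finset

namespace Pool.Agent.Helper20.NB
open Pool.Agent.Helper11.ZP Pool.Agent.Helper11.ZU Pool.Agent.Helper20.ZD Pool.Agent.Helper11.LC
  Pool.Agent.Helper69.DL Pool.Agent.Helper36.DL Pool.Agent.Helper22.DL Pool.Agent.Helper20.DL

variable {n : ℕ} {v : AbsoluteValue ℂ ℝ}

/-- **case C** for one quadruple of indices and one sign, the coefficients near roots of unity modulo `p` -/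
lemma classC_one (hv : IsNonarchimedean v) {p : ℕ} (hp : p.Prime) (hvp : v (p : ℂ) < 1)
    {e j k l : Fin n} (hje : j ≠ e) (hek : e ≠ k) (hel : e ≠ l) {s : ℤ}
    (hs : s = 1 ∨ s = -1) {H₁ H₂ F Fk Fl : MvPolynomial (Fin 2) ℤ}
    (g1 : GoodRel v p H₁) (g2 : GoodRel v p H₂) (g3 : GoodRel v p F) (g4 : GoodRel v p Fk)
    (g5 : GoodRel v p Fl) {M : ℕ} (hM : 0 < M) :
    ∃ B : ℕ, ∀ (V : Set (Fin n → ℂ)), HoldsMod v p H₁ V (Pi.single e s) (diff k l) →
      HoldsMod v p H₂ V (Pi.single j 1) (diff k l) → HoldsMod v p F V (Pi.single e s) (Pi.single j 1) →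
      HoldsMod v p Fk V (Pi.single e s) (Pi.single k 1) → HoldsMod v p Fl V (Pi.single e s) (Pi.single l 1) →
      ∀ (m : ℕ) (lam a τ : Fin n → ℂ), Norm v p m lam a → (∀ i, τ i ^ M = 1) →
      (∀ i, v ((p : ℂ) ^ m * lam i - τ i) ≤ v (p : ℂ)) → ∀ z ∈ V, ∀ (N' : ℕ),
      (z e = 0 → s = 1) → (∀ i, i ≠ e → v (z i) = 1) → v (z j) = 1 → v (z k) = 1 → v (z l) = 1 →
      CyclicIsog N' (lam k * z k + a k) (lam l * z l + a l) → v (z e ^ s) < 1 →
      (v (p : ℂ) < v (z e ^ s) → ∃ (ζ' ε : ℂ) (a d : ℕ), 0 < a ∧ 0 < d ∧ Nat.Coprime a d ∧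
      v (z e ^ s) ^ a = (v (p : ℂ) ^ m) ^ d ∧
      ((p : ℂ) ^ m * lam j * z j) ^ d * (z e ^ s) ^ a =
        ζ' * ((p : ℂ) ^ m) ^ d * ((lam j / lam e * z j) ^ s) ^ a * (1 + ε) ∧
      (∃ j, 0 < j ∧ ζ' ^ j = 1) ∧ v ε * v (z e ^ s) ≤ v (p : ℂ)) → N' ≤ B := by
  have hp0 : 0 < v (p : ℂ) := AbsoluteValue.pos_iff v |>.2 (by exact_mod_cast hp.ne_zero)
  have hpne : (p : ℂ) ≠ 0 := by exact_mod_cast hp.ne_zero
  set D := max H₁.totalDegree (max H₂.totalDegree F.totalDegree) with hD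
  have hpD : 64 * D ^ 2 ≤ p := by
    have e1 := g1.large
    have e2 := g2.large
    have e3 := g3.large
    have key : ∀ t : ℕ, 64 * (t + 1) ^ 2 ≤ p → 64 * t ^ 2 ≤ p := fun t ht =>
      le_trans (Nat.mul_le_mul_left 64 (Nat.pow_le_pow_left (Nat.le_succ t) 2)) ht
    rcases max_choice H₁.totalDegree (max H₂.totalDegree F.totalDegree) with h | h
    · rw [hD, h]; exact key _ e1
    · rcases max_choice H₂.totalDegree F.totalDegree with h' | h'
      · rw [hD, h, h']; exact key _ e2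
      · rw [hD, h, h']; exact key _ e3
  have hp4 : 4 ≤ p := by
    have e1 := g1.large
    have e2 : 1 ≤ (H₁.totalDegree + 1) ^ 2 := Nat.one_le_pow _ _ (by omega)
    omega
  have hdeg : ∀ {H : MvPolynomial (Fin 2) ℤ}, H.totalDegree ≤ D → ∀ m ∈ H.support, m 0 ≤ D ∧ m 1 ≤ D := by
    intro H hH m hm
    have := supp_le hH hm
    omega
  have hT1 : Tame v p (1 : ℂ) := ⟨isAlgebraic_one, map_one v, by rw [one_pow, sub_self, map_zero]; exact hp0.le⟩
  obtain ⟨G₀, hG⟩ := exc_boundedM' hv hp hp4 hvp hpD hT1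
    (hdeg (le_max_left _ _)) (rowUnit_of hv hp hvp g1)
    (hdeg ((le_max_left _ _).trans (le_max_right _ _))) g2.noCoset
    (fun m hm => (hdeg ((le_max_right _ _).trans (le_max_right _ _)) m hm).2) (botUnit_of hv hp hvp g3)
    (botUnit_of hv hp hvp g4) (botUnit_of hv hp hvp g5)
  refine ⟨(G₀ * M) ^ 2, ?_⟩
  intro V h1 h2 h3 h4 h5 m lam a τ haff hτM hτn z hz N' he hall hj hk hl' hN' hw hcond
  have hc0 : 0 < v (p : ℂ) ^ m := pow_pos hp0 m
  have hcp : v (p : ℂ) ^ m ≤ v (p : ℂ) := by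
    calc v (p : ℂ) ^ m ≤ v (p : ℂ) ^ 1 := pow_le_pow_of_le_one hp0.le hvp.le haff.one_le
      _ = _ := pow_one _
  have hl : ∀ i, v (lam i) * v (p : ℂ) ^ m = 1 := fun i => by
    have := haff.lam_one i
    rwa [map_mul, map_pow, mul_comm] at this
  have ha : ∀ i, v (a i / lam i) ≤ v (p : ℂ) := fun i => by
    have e1 : a i / lam i = ((p : ℂ) ^ m * a i) / ((p : ℂ) ^ m * lam i) :=
      (mul_div_mul_left _ _ (pow_ne_zero m hpne)).symm
    rw [e1, map_div₀, haff.lam_one i, div_one]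
    exact haff.a_le i
  have hτ1 : ∀ i, v (τ i) = 1 := fun i => val_root hM (hτM i)
  have hτ0 : ∀ i, τ i ≠ 0 := fun i => by
    rw [← AbsoluteValue.ne_zero_iff v, hτ1 i]
    exact one_ne_zero
  -- the unit `p ^ m lam_i / τ_i` near one
  set A : Fin n → ℂ := fun i => (p : ℂ) ^ m * lam i / τ i with hA
  have hA1 : ∀ i, v (A i - 1) ≤ v (p : ℂ) := fun i => by
    have e1 : A i - 1 = ((p : ℂ) ^ m * lam i - τ i) / τ i := by
      rw [hA]
      have := hτ0 i
      field_simp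
    rw [e1, map_div₀, hτ1, div_one]
    exact hτn i
  have hlA : ∀ i, (p : ℂ) ^ m * lam i = τ i * A i := fun i => by
    rw [hA]
    have := hτ0 i
    field_simp
  have hAv : ∀ i, v (A i) = 1 := fun i => by
    rw [show A i = 1 + (A i - 1) by ring, v_add_eq hv (by rw [map_one]; exact (hA1 i).trans_lt hvp), map_one]
  have hA0 : ∀ i, A i ≠ 0 := fun i => by
    rw [← AbsoluteValue.ne_zero_iff v, hAv i]
    exact one_ne_zero
  have hratio : ∀ i j, lam j / lam i = τ j / τ i * (A j / A i) := fun i j => by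
    have e1 : lam j / lam i = ((p : ℂ) ^ m * lam j) / ((p : ℂ) ^ m * lam i) :=
      (mul_div_mul_left _ _ (pow_ne_zero m hpne)).symm
    rw [e1, hlA, hlA, mul_div_mul_comm]
  have hz0 : ∀ {q}, v (z q) = 1 → z q ≠ 0 := fun {q} hq h0 => by
    rw [h0, map_zero] at hq
    exact zero_ne_one hq
  obtain ⟨g, ζ, a1, a2, a3, a4⟩ := ratio_nearA hv hc0 hcp hvp (hl k) (hl l) (ha k) (ha l) hk hl' hN'
  have hs1 : ∀ q, z q = 0 → 0 ≤ (Pi.single e s : Fin n → ℤ) q := by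
    intro q hq
    by_cases hqe : q = e
    · subst hqe
      rw [he hq, Pi.single_eq_same]
      exact zero_le_one
    · rw [Pi.single_eq_of_ne hqe]
  have hs2 : ∀ {r}, v (z r) = 1 → ∀ q, z q = 0 → (Pi.single r 1 : Fin n → ℤ) q = 0 := by
    intro r hr q hq
    have hqr : q ≠ r := fun h => hz0 hr (by rw [← h]; exact hq)
    rw [Pi.single_eq_of_ne hqr]
  have hs3 : ∀ q, z q = 0 → diff k l q = 0 := by
    intro q hq
    have hne : ∀ {r}, v (z r) = 1 → q ≠ r := fun {r} hr h => hz0 hr (h ▸ hq)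
    unfold diff
    simp [hne hk, hne hl']
  -- the sign of the exponent of the exceptional coordinate
  have hlt : ∀ q, v (z q) < 1 → 0 ≤ (Pi.single e s : Fin n → ℤ) q := by
    intro q hq
    by_cases hqe : q = e
    · subst hqe
      rw [Pi.single_eq_same]
      rcases hs with rfl | rfl
      · exact zero_le_one
      · exfalso
        by_cases h0 : z q = 0
        · have := he h0
          norm_num at this
        · rw [zpow_neg_one, map_inv₀] at hw
          have h0' : 0 < v (z q) := v.pos h0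
          have := (one_lt_inv₀ h0').2 hq
          linarith
    · exact absurd (hall q hqe) hq.ne
  have hgt : ∀ q, 1 < v (z q) → (Pi.single e s : Fin n → ℤ) q ≤ 0 := by
    intro q hq
    by_cases hqe : q = e
    · subst hqe
      rw [Pi.single_eq_same]
      rcases hs with rfl | rfl
      · rw [zpow_one] at hw
        exact absurd hq (not_lt.2 hw.le)
      · norm_num
    · exact absurd (hall q hqe) hq.ne'
  have hne0 : ∀ {r}, r ≠ e → ∀ q, v (z q) ≠ 1 → (Pi.single r 1 : Fin n → ℤ) q = 0 := by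
    intro r hr q hq
    have hqe : q = e := by
      by_contra hqe
      exact hq (hall q hqe)
    rw [Pi.single_eq_of_ne (by rw [hqe]; exact hr.symm)]
  have hne1 : ∀ q, v (z q) ≠ 1 → diff k l q = 0 := by
    intro q hq
    have hqe : q = e := by
      by_contra hqe
      exact hq (hall q hqe)
    subst hqe
    unfold diff
    simp [hek, hel]
  have k1 := h1 z hz (fun q hq => ⟨hs1 q hq, (hs3 q hq).ge⟩) (fun q hq => ⟨hlt q hq, (hne1 q hq.ne).ge⟩)
    (fun q hq => ⟨hgt q hq, (hne1 q hq.ne').le⟩)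
  have k2 := h2 z hz (fun q hq => ⟨(hs2 hj q hq).ge, (hs3 q hq).ge⟩)
    (fun q hq => ⟨(hne0 hje q hq.ne).ge, (hne1 q hq.ne).ge⟩)
    (fun q hq => ⟨(hne0 hje q hq.ne').le, (hne1 q hq.ne').le⟩)
  have k3 := h3 z hz (fun q hq => ⟨hs1 q hq, (hs2 hj q hq).ge⟩)
    (fun q hq => ⟨hlt q hq, (hne0 hje q hq.ne).ge⟩) (fun q hq => ⟨hgt q hq, (hne0 hje q hq.ne').le⟩)
  have k4 := h4 z hz (fun q hq => ⟨hs1 q hq, (hs2 hk q hq).ge⟩)
    (fun q hq => ⟨hlt q hq, (hne0 hek.symm q hq.ne).ge⟩) (fun q hq => ⟨hgt q hq, (hne0 hek.symm q hq.ne').le⟩)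
  have k5 := h5 z hz (fun q hq => ⟨hs1 q hq, (hs2 hl' q hq).ge⟩)
    (fun q hq => ⟨hlt q hq, (hne0 hel.symm q hq.ne).ge⟩) (fun q hq => ⟨hgt q hq, (hne0 hel.symm q hq.ne').le⟩)
  rw [prod_single, prod_diff z (hz0 hk) (hz0 hl')] at k1 k2
  rw [prod_single, prod_single] at k3 k4 k5
  rw [zpow_one] at k2 k3 k4 k5
  have vζ : v ζ = 1 := val_root a1 a3.pow_eq_one
  -- the root of unity
  set ζ₁ := τ l / τ k * ζ with hζ₁
  have hpow : ζ₁ ^ (g * M) = 1 := by
    rw [hζ₁, mul_pow, div_pow, mul_comm g M, pow_mul, pow_mul, pow_mul, hτM, hτM, one_pow, div_one, one_mul,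
      ← pow_mul, mul_comm M g, pow_mul, a3.pow_eq_one, one_pow]
  have hord : 0 < orderOf ζ₁ := orderOf_pos_iff.2 (isOfFinOrder_iff_pow_eq_one.2
    ⟨g * M, Nat.mul_pos a1 hM, hpow⟩)
  have hgle : g ≤ orderOf ζ₁ * M := by
    refine Nat.le_of_dvd (Nat.mul_pos hord hM) (a3.dvd_of_pow_eq_one _ ?_)
    have h2 : (τ l / τ k) ^ (orderOf ζ₁ * M) = 1 := by
      rw [mul_comm, pow_mul, div_pow, hτM, hτM, div_one, one_pow]
    have h3 : ζ₁ ^ (orderOf ζ₁ * M) = 1 := by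
      rw [pow_mul, pow_orderOf_eq_one, one_pow]
    rw [hζ₁, mul_pow, ← hζ₁, h2, one_mul] at h3
    exact h3
  have hAA : ∀ i j, v (A j / A i - 1) ≤ v (p : ℂ) := fun i j => by
    have e1 : A j / A i - 1 = ((A j - 1) - (A i - 1)) / A i := by
      have := hA0 i
      field_simp
      ring
    rw [e1, map_div₀, hAv, div_one]
    exact (v_sub_le hv _ _).trans (max_le (hA1 j) (hA1 i))
  have hs4 : v (z k / z l - 1 * ζ₁) ≤ v (p : ℂ) := by
    have e1 : z k / z l - 1 * ζ₁ = (z k / z l - lam l / lam k * ζ) + ζ₁ * (A l / A k - 1) := by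
      rw [hratio, hζ₁]
      ring
    rw [e1]
    refine (hv _ _).trans (max_le a4 ?_)
    rw [map_mul, val_root (Nat.mul_pos a1 hM) hpow, one_mul]
    exact hAA k l
  have hfin := hG m 1 1 (map_one v) (by rw [one_pow, sub_self, map_zero]; exact hp0.le) (map_one v)
    (by rw [one_pow, sub_self, map_zero]; exact hp0.le)
    (z e ^ s) (z j) (z k) (z l) ζ₁ _ hw hj hk hl' k1 k2 k3 k4 k5 hs4 hord (IsPrimitiveRoot.orderOf ζ₁)
    (fun hlt => by
      obtain ⟨ζ', ε, a', d, b1, b2, b3, b4, b5, ⟨j', b6, b6'⟩, b7⟩ := hcond hlt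
      set U : ℂ := (A j / A e) ^ (s * (a' : ℤ)) * A j ^ (-(d : ℤ)) with hU
      have hU1 : v (U - 1) ≤ v (p : ℂ) := by
        have e1 := near_zpow hv hvp (hAA e j) (s * (a' : ℤ))
        have e2 := near_zpow hv hvp (hA1 j) (-(d : ℤ))
        have e3 : U - 1 = ((A j / A e) ^ (s * (a' : ℤ)) - 1) * A j ^ (-(d : ℤ)) + (A j ^ (-(d : ℤ)) - 1) := by
          rw [hU]
          ring
        rw [e3]
        refine (hv _ _).trans (max_le ?_ e2)
        rw [map_mul, map_zpow₀, hAv, one_zpow, mul_one]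
        exact e1
      have hUv : v U ≤ 1 := by
        rw [show U = (U - 1) + 1 by ring]
        exact (hv _ _).trans (max_le (hU1.trans hvp.le) (by rw [map_one]))
      refine ⟨ζ' * (τ j ^ (-(d : ℤ)) * (τ j / τ e) ^ (s * (a' : ℤ))), (U - 1) + U * ε, a', d, s, b1, b2, b3,
        by rw [b4, ← pow_mul], hs, ?_, ⟨j' * M, Nat.mul_pos b6 hM, ?_⟩, ?_⟩
      · rw [hlA, hratio] at b5
        have hzj := hz0 hj
        have e1 : (τ j * A j * z j) ^ d = τ j ^ d * A j ^ d * z j ^ d := by rw [mul_pow, mul_pow]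
        have e2 : ((τ j / τ e * (A j / A e) * z j) ^ s) ^ a' =
            (τ j / τ e) ^ (s * (a' : ℤ)) * (A j / A e) ^ (s * (a' : ℤ)) * (z j ^ s) ^ a' := by
          rw [mul_zpow, mul_zpow, mul_pow, mul_pow, ← zpow_natCast ((τ j / τ e) ^ s), ← zpow_mul,
            ← zpow_natCast ((A j / A e) ^ s), ← zpow_mul]
        rw [e1, e2] at b5
        have hτj := pow_ne_zero d (hτ0 j)
        have hAj := pow_ne_zero d (hA0 j)
        rw [one_mul, hU, zpow_neg, zpow_neg, zpow_natCast, zpow_natCast, pow_mul]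
        have e3 : z j ^ d * (z e ^ s) ^ a' = (τ j ^ d * A j ^ d * z j ^ d * (z e ^ s) ^ a') *
            ((τ j ^ d)⁻¹ * (A j ^ d)⁻¹) := by
          field_simp
        rw [e3, b5]
        ring
      · rw [mul_pow, pow_mul, b6', one_pow, one_mul, mul_pow]
        have e1 : ∀ (t : ℂ), t ^ M = 1 → ∀ r : ℤ, (t ^ r) ^ (j' * M) = 1 := fun t ht r => by
          rw [← zpow_natCast, ← zpow_mul, mul_comm, zpow_mul, zpow_natCast, mul_comm j' M, pow_mul, ht, one_pow,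
            one_zpow]
        rw [e1 (τ j) (hτM j), e1 (τ j / τ e) (by rw [div_pow, hτM, hτM, div_one]), one_mul]
      · have e1 : v ((U - 1) + U * ε) ≤ max (v (p : ℂ)) (v ε) := by
          refine (hv _ _).trans (max_le_max hU1 ?_)
          rw [map_mul]
          exact mul_le_of_le_one_left (v.nonneg _) hUv
        calc v ((U - 1) + U * ε) * v (z e ^ s) ≤ max (v (p : ℂ)) (v ε) * v (z e ^ s) :=
              mul_le_mul_of_nonneg_right e1 (v.nonneg _)
          _ ≤ v (p : ℂ) := by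
              rw [max_mul_of_nonneg _ _ (v.nonneg _)]
              exact max_le (mul_le_of_le_one_right hp0.le hw.le) b7)
  rw [a2]
  exact Nat.pow_le_pow_left (hgle.trans (Nat.mul_le_mul_right M hfin)) 2

/-- the affine maps with coefficients near roots of unity modulo `p` -/
structure Root (v : AbsoluteValue ℂ ℝ) (p M m : ℕ) (lam a : Fin n → ℂ) : Prop where
  /-- normal form -/
  norm : Norm v p m lam a
  /-- roots of unity -/
  root : ∃ τ : Fin n → ℂ, (∀ i, τ i ^ M = 1) ∧ ∀ i, v ((p : ℂ) ^ m * lam i - τ i) ≤ v (p : ℂ)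

/-- **case C**, uniformly -/
theorem rootC {M : ℕ} (hM : 0 < M) (hv : IsNonarchimedean v) {p : ℕ} (hp : p.Prime) (hvp : v (p : ℂ) < 1) {V : Set (Fin n → ℂ)}
    (hloc : LocalRel v p V) (hone : ∀ z ∈ V, ∀ i j, v (z i) ≠ 1 → v (z j) ≠ 1 → i = j) :
    ∃ B : ℕ, ∀ (m : ℕ) (lam a : Fin n → ℂ), Root v p M m lam a → ∀ z ∈ V, ∀ (e j k l : Fin n) (N N' : ℕ),
    v (z e) ≠ 1 → v (z j) = 1 → v (z k) = 1 → v (z l) = 1 → 1 < v (lam e * z e + a e) →
      e ≠ j → e ≠ k → e ≠ l → k ≠ l → l ≠ j → CyclicIsog N (lam e * z e + a e) (lam j * z j + a j) →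
        CyclicIsog N' (lam k * z k + a k) (lam l * z l + a l) → N' ≤ B := by
  classical
  let ι := (Fin n × Fin n × Fin n × Fin n) × Bool
  let sg : Bool → ℤ := fun b => if b then 1 else -1
  have hsg : ∀ b, sg b = 1 ∨ sg b = -1 := fun b => by cases b <;> simp [sg]
  have hsg0 : ∀ b, sg b ≠ 0 := fun b => by cases b <;> simp [sg]
  have hp0 : 0 < v (p : ℂ) := AbsoluteValue.pos_iff v |>.2 (by exact_mod_cast hp.ne_zero)
  have hpne : (p : ℂ) ≠ 0 := by exact_mod_cast hp.ne_zero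
  have h2 : ∀ q : ι, ∃ B : ℕ, q.1.1 ≠ q.1.2.1 → q.1.1 ≠ q.1.2.2.1 → q.1.1 ≠ q.1.2.2.2 →
      q.1.2.2.1 ≠ q.1.2.2.2 → q.1.2.2.2 ≠ q.1.2.1 →
      ∀ (m : ℕ) (lam a τ : Fin n → ℂ), Norm v p m lam a → (∀ i, τ i ^ M = 1) →
      (∀ i, v ((p : ℂ) ^ m * lam i - τ i) ≤ v (p : ℂ)) → ∀ z ∈ V, ∀ (N' : ℕ),
      (z q.1.1 = 0 → sg q.2 = 1) → (∀ i, i ≠ q.1.1 → v (z i) = 1) →
      v (z q.1.2.1) = 1 → v (z q.1.2.2.1) = 1 → v (z q.1.2.2.2) = 1 →
      CyclicIsog N' (lam q.1.2.2.1 * z q.1.2.2.1 + a q.1.2.2.1)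
        (lam q.1.2.2.2 * z q.1.2.2.2 + a q.1.2.2.2) →
      v (z q.1.1 ^ sg q.2) < 1 →
      (v (p : ℂ) < v (z q.1.1 ^ sg q.2) → ∃ (ζ' ε : ℂ) (a d : ℕ), 0 < a ∧ 0 < d ∧ Nat.Coprime a d ∧
      v (z q.1.1 ^ sg q.2) ^ a = (v (p : ℂ) ^ m) ^ d ∧
      ((p : ℂ) ^ m * lam q.1.2.1 * z q.1.2.1) ^ d * (z q.1.1 ^ sg q.2) ^ a =
        ζ' * ((p : ℂ) ^ m) ^ d * ((lam q.1.2.1 / lam q.1.1 * z q.1.2.1) ^ sg q.2) ^ a * (1 + ε) ∧
      (∃ j, 0 < j ∧ ζ' ^ j = 1) ∧ v ε * v (z q.1.1 ^ sg q.2) ≤ v (p : ℂ)) → N' ≤ B := by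
    rintro ⟨⟨e, j, k, l⟩, b⟩
    by_cases h : e ≠ j ∧ e ≠ k ∧ e ≠ l ∧ k ≠ l ∧ l ≠ j
    · obtain ⟨hej, hek, hel, hkl, hlj⟩ := h
      obtain ⟨H₁, a1, a2⟩ := hloc (Pi.single e (sg b)) (diff k l) (single_diff_indep hel hkl (hsg0 b))
        fun i => ⟨abs_single (hsg b) i, abs_diff_le k l i⟩
      obtain ⟨H₂, b1, b2⟩ := hloc (Pi.single j 1) (diff k l) (single_diff_indep hlj.symm hkl one_ne_zero)
        fun i => ⟨abs_single (Or.inl rfl) i, abs_diff_le k l i⟩
      obtain ⟨F, c1, c2⟩ := hloc (Pi.single e (sg b)) (Pi.single j 1) (single_indep hej (hsg0 b))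
        fun i => ⟨abs_single (hsg b) i, abs_single (Or.inl rfl) i⟩
      obtain ⟨Fk, d1, d2⟩ := hloc (Pi.single e (sg b)) (Pi.single k 1) (single_indep hek (hsg0 b))
        fun i => ⟨abs_single (hsg b) i, abs_single (Or.inl rfl) i⟩
      obtain ⟨Fl, e1, e2⟩ := hloc (Pi.single e (sg b)) (Pi.single l 1) (single_indep hel (hsg0 b))
        fun i => ⟨abs_single (hsg b) i, abs_single (Or.inl rfl) i⟩
      obtain ⟨B, hB⟩ := classC_one hv hp hvp hej.symm hek hel (hsg b) a1 b1 c1 d1 e1 hM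
      exact ⟨B, fun _ _ _ _ _ => hB V a2 b2 c2 d2 e2⟩
    · exact ⟨0, fun a b c d e => absurd ⟨a, b, c, d, e⟩ h⟩
  choose B hB using h2
  refine ⟨univ.sup B, fun m lam a hroot z hz e j k l N N' he hj hk hl' hbe hej hek hel hkl hlj hN hN' => ?_⟩
  obtain ⟨haff, τ, hτM, hτn⟩ := hroot
  have hc0 : 0 < v (p : ℂ) ^ m := pow_pos hp0 m
  have hcp : v (p : ℂ) ^ m ≤ v (p : ℂ) := by
    calc v (p : ℂ) ^ m ≤ v (p : ℂ) ^ 1 := pow_le_pow_of_le_one hp0.le hvp.le haff.one_le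
      _ = _ := pow_one _
  have hl : ∀ i, v (lam i) * v (p : ℂ) ^ m = 1 := fun i => by
    have := haff.lam_one i
    rwa [map_mul, map_pow, mul_comm] at this
  have ha : ∀ i, v (a i / lam i) ≤ v (p : ℂ) := fun i => by
    have e1 : a i / lam i = ((p : ℂ) ^ m * a i) / ((p : ℂ) ^ m * lam i) :=
      (mul_div_mul_left _ _ (pow_ne_zero m hpne)).symm
    rw [e1, map_div₀, haff.lam_one i, div_one]
    exact haff.a_le i
  have hNpos : 0 < N := Nat.pos_of_ne_zero fun h0 => not_isog_zero (h0 ▸ hN)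
  obtain ⟨s, hs, k1, k2, k3⟩ := pair_excA hv hc0 hcp hvp (P := (p : ℂ) ^ m)
    (by rw [map_pow]) (hl e) (hl j) (ha e) (ha j) he hj hbe hNpos hN
  obtain ⟨b, rfl⟩ : ∃ b, sg b = s := by
    rcases hs with rfl | rfl
    · exact ⟨true, rfl⟩
    · exact ⟨false, rfl⟩
  have hall : ∀ i, i ≠ e → v (z i) = 1 := fun i hi => by
    by_contra hcon
    exact hi (hone z hz i e hcon he)
  exact (hB ((e, j, k, l), b) hej hek hel hkl hlj m lam a τ haff hτM hτn z hz N' k2 hall hj hk hl' hN' k1 k3).trans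
    (Finset.le_sup (mem_univ ((e, j, k, l), b)))

/-- **case A**, uniformly -/
theorem rootA {M : ℕ} (hM : 0 < M) (hv : IsNonarchimedean v) {p : ℕ} (hp : p.Prime) (hvp : v (p : ℂ) < 1) {V : Set (Fin n → ℂ)}
    (hloc : LocalRel v p V) :
    ∃ B : ℕ, ∀ (m : ℕ) (lam a : Fin n → ℂ), Root v p M m lam a → ∀ z ∈ V, ∀ (i k l : Fin n) (N : ℕ),
    v (lam i * z i + a i) ≤ 1 → v (z k) = 1 → v (z l) = 1 → i ≠ k → i ≠ l → k ≠ l →
      CyclicIsog N (lam k * z k + a k) (lam l * z l + a l) → N ≤ B := by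
  classical
  have hvp0 : 0 < v (p : ℂ) := (AbsoluteValue.pos_iff v).2 (by exact_mod_cast hp.ne_zero)
  -- one pair
  have h1 : ∀ i k : Fin n, ∃ (Y : Finset ℂ) (ρ : ℝ), 0 ≤ ρ ∧ ρ < 1 ∧ (∀ c ∈ Y, v c = 1) ∧ (i ≠ k →
      ∀ z ∈ V, v (z i) ≤ v (p : ℂ) → v (z k) = 1 → ∃ c ∈ Y, v (z k - c) ≤ ρ) := by
    intro i k
    by_cases hik : i = k
    · exact ⟨∅, 0, le_rfl, one_pos, by simp, fun h => absurd hik h⟩
    · obtain ⟨F, hF, hFV⟩ := hloc (Pi.single i 1) (Pi.single k 1) (single_indep hik one_ne_zero)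
        fun q => ⟨abs_single (Or.inl rfl) q, abs_single (Or.inl rfl) q⟩
      obtain ⟨Y, ρ, a1, b1, c1, d1⟩ := near_of_bot hv hvp0.le hvp (botUnit_of hv hp hvp hF)
      refine ⟨Y, ρ, a1, b1, c1, fun _ z hz hzi hzk => d1 (z i) (z k) hzi hzk ?_⟩
      have hs : ∀ (r q : Fin n), 0 ≤ (Pi.single r 1 : Fin n → ℤ) q := fun r q => by
        by_cases h : q = r
        · subst h
          rw [Pi.single_eq_same]
          exact zero_le_one
        · rw [Pi.single_eq_of_ne h]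
      have h2 := hFV z hz (fun q _ => ⟨hs i q, hs k q⟩) (fun q _ => ⟨hs i q, hs k q⟩) (fun q hq => by
        have e1 : q ≠ i := by
          rintro rfl
          exact absurd (hzi.trans hvp.le) (not_le.2 hq)
        have e2 : q ≠ k := by
          rintro rfl
          exact absurd hzk.le (not_le.2 hq)
        rw [Pi.single_eq_of_ne e1, Pi.single_eq_of_ne e2]
        exact ⟨le_rfl, le_rfl⟩)
      rwa [prod_single, prod_single, zpow_one, zpow_one] at h2
  choose Y ρ hρ0 hρ1 hY hd using h1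
  rcases isEmpty_or_nonempty (Fin n) with hn | hn
  · exact ⟨0, fun m lam a _ z _ i => isEmptyElim i⟩
  obtain ⟨r, -, hr⟩ := exists_max_image (univ : Finset (Fin n × Fin n)) (fun r => ρ r.1 r.2)
    ⟨(Classical.arbitrary _, Classical.arbitrary _), mem_univ _⟩
  set ρ' := max (ρ r.1 r.2) (v (p : ℂ)) with hρ'
  have hρ'1 : ρ' < 1 := max_lt (hρ1 r.1 r.2) hvp
  choose G hG using fun u : ℂ => root_bound v hv hρ'1 u
  set C : Finset ℂ := (univ : Finset (Fin n × Fin n)).biUnion fun q => Y q.1 q.2 with hC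
  set W : Finset ℂ := ((Polynomial.nthRoots M (1 : ℂ)).toFinset ×ˢ (C ×ˢ C)).image fun q => q.1 * q.2.1 / q.2.2 with hW
  refine ⟨(W.sup G) ^ 2, fun m lam a h' z hz i k l N hi hk hl hik hil _ hN => ?_⟩
  obtain ⟨h, τ, hτM, hτn⟩ := h'
  have hc0 : 0 < v (p : ℂ) ^ m := pow_pos hvp0 m
  have hcq := h.pow_le hvp0 hvp
  have hl0 := h.lam_ne hvp0
  have hzi : v (z i) ≤ v (p : ℂ) := by
    have h2 : lam i * z i = (lam i * z i + a i) - a i := by ring
    have h3 : v (lam i * z i) ≤ v (p : ℂ) * (v (p : ℂ) ^ m)⁻¹ := by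
      rw [h2]
      refine (v_sub_le hv _ _).trans (max_le (hi.trans ?_) ?_)
      · rw [← div_eq_mul_inv, le_div_iff₀ hc0, one_mul]
        exact hcq
      · rw [← div_eq_mul_inv, le_div_iff₀ hc0]
        exact h.v_a hvp0 i
    rw [map_mul, h.v_lam hvp0, mul_comm (v (p : ℂ))] at h3
    exact le_of_mul_le_mul_left h3 (inv_pos.2 hc0)
  obtain ⟨c, hc, h4⟩ := hd i k hik z hz hzi hk
  obtain ⟨c', hc', h5⟩ := hd i l hil z hz hzi hl
  have hvc := hY _ _ c hc
  have hvc' := hY _ _ c' hc'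
  have hcC : c ∈ C := mem_biUnion.2 ⟨(i, k), mem_univ _, hc⟩
  have hcC' : c' ∈ C := mem_biUnion.2 ⟨(i, l), mem_univ _, hc'⟩
  have hpC' : (p : ℂ) ≠ 0 := (AbsoluteValue.pos_iff v).1 hvp0
  have hτ1 : ∀ i, v (τ i) = 1 := fun i => val_root hM (hτM i)
  set q : ℂ := τ k / τ l with hq'
  have hqM : q ^ M = 1 := by rw [hq', div_pow, hτM, hτM, div_one]
  have hq : q ∈ (Polynomial.nthRoots M (1 : ℂ)).toFinset := by
    rw [Multiset.mem_toFinset, Polynomial.mem_nthRoots hM]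
    exact hqM
  have hqμ : v (lam k / lam l - q) ≤ v (p : ℂ) := by
    have e0 : lam k / lam l = ((p : ℂ) ^ m * lam k) / ((p : ℂ) ^ m * lam l) :=
      (mul_div_mul_left _ _ (pow_ne_zero m hpC')).symm
    have hl1 := h.lam_one l
    have e1 : (p : ℂ) ^ m * lam l ≠ 0 := by
      rw [← AbsoluteValue.ne_zero_iff v, hl1]
      exact one_ne_zero
    have e2 : τ l ≠ 0 := by
      rw [← AbsoluteValue.ne_zero_iff v, hτ1]
      exact one_ne_zero
    have e3 : ((p : ℂ) ^ m * lam k) / ((p : ℂ) ^ m * lam l) - τ k / τ l =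
        (((p : ℂ) ^ m * lam k - τ k) * τ l - τ k * ((p : ℂ) ^ m * lam l - τ l)) /
          (((p : ℂ) ^ m * lam l) * τ l) := by
      have e4 := hl0 l
      field_simp
      ring
    rw [hq', e0, e3, map_div₀, map_mul, hl1, hτ1, one_mul, div_one]
    refine (v_sub_le hv _ _).trans (max_le ?_ ?_)
    · rw [map_mul, hτ1, mul_one]
      exact hτn k
    · rw [map_mul, hτ1, one_mul]
      exact hτn l
  have hN0 : 0 < N := Nat.pos_of_ne_zero fun h0 => not_isog_zero (h0 ▸ hN)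
  have hxk := h.v_x hvp0 hv hvp hk
  have hxl := h.v_x hvp0 hv hvp hl
  obtain ⟨g, ζ, hg, hNg, hζ, hd'⟩ := pair_square hv (x := lam k * z k + a k) (y := lam l * z l + a l)
    (by rw [hxk]; exact (one_lt_inv₀ hc0).2 (hcq.trans_lt hvp)) (by rw [hxk, hxl]) hN0 hN
  rw [hxk, inv_inv] at hd'
  have hz0 : ∀ {x : ℂ}, v x = 1 → x ≠ 0 := fun {x} hx h0 => by
    rw [h0, map_zero] at hx
    exact zero_ne_one hx
  have hpC : (p : ℂ) ≠ 0 := (AbsoluteValue.pos_iff v).1 hvp0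
  -- the ratio
  have h6 : v ((lam k * z k + a k) / (lam l * z l + a l) - q * c / c') ≤ ρ' := by
    have hx0 : lam l * z l + a l ≠ 0 := by
      rw [← AbsoluteValue.ne_zero_iff v, hxl]
      exact inv_ne_zero hc0.ne'
    have hc'0 := hz0 hvc'
    have e1 : (lam k * z k + a k) / (lam l * z l + a l) - q * c / c' =
        ((lam k / lam l - q) * (z k * c') + q * (c' * (z k - c) - c * (z l - c')) +
          (a k / lam l * c' - q * c * (a l / lam l))) /
            ((lam l * z l + a l) / lam l * c') := by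
      have := hl0 l
      field_simp
      ring
    have e2 : v ((lam l * z l + a l) / lam l * c') = 1 := by
      rw [map_mul, map_div₀, hxl, h.v_lam hvp0, div_self (inv_ne_zero hc0.ne'), hvc', one_mul]
    have hq1 : v q ≤ 1 := (val_root hM hqM).le
    have hal : ∀ s t, v (a s / lam t) ≤ v (p : ℂ) := fun s t => by
      rw [map_div₀, h.v_lam hvp0, div_inv_eq_mul]
      exact h.v_a hvp0 s
    have h4' := (h4.trans (hr (i, k) (mem_univ _))).trans (le_max_left _ (v (p : ℂ)))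
    have h5' := (h5.trans (hr (i, l) (mem_univ _))).trans (le_max_left _ (v (p : ℂ)))
    rw [e1, map_div₀, e2, div_one]
    refine (hv _ _).trans (max_le ((hv _ _).trans (max_le ?_ ?_)) ((v_sub_le hv _ _).trans (max_le ?_ ?_)))
    · rw [map_mul, map_mul, hk, hvc', mul_one, mul_one]
      exact hqμ.trans (le_max_right _ _)
    · rw [map_mul]
      refine (mul_le_of_le_one_left (AbsoluteValue.nonneg v _) hq1).trans
        ((v_sub_le hv _ _).trans (max_le ?_ ?_))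
      · rw [map_mul, hvc', one_mul]
        exact h4'
      · rw [map_mul, hvc, one_mul]
        exact h5'
    · rw [map_mul, hvc', mul_one]
      exact (hal k l).trans (le_max_right _ _)
    · rw [map_mul, map_mul, hvc, mul_one]
      exact (mul_le_of_le_one_left (AbsoluteValue.nonneg v _) hq1).trans ((hal l l).trans (le_max_right _ _))
  have h7 : v (ζ - q * c / c') ≤ ρ' := by
    rw [show ζ - q * c / c' = (ζ - (lam k * z k + a k) / (lam l * z l + a l)) +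
      ((lam k * z k + a k) / (lam l * z l + a l) - q * c / c') by ring]
    exact (hv _ _).trans (max_le (hd'.trans (hcq.trans (le_max_right _ _))) h6)
  have h8 : q * c / c' ∈ W := mem_image.2 ⟨(q, c, c'), mem_product.2 ⟨hq, mem_product.2 ⟨hcC, hcC'⟩⟩, rfl⟩
  rw [hNg]
  exact Nat.pow_le_pow_left ((hG _ ζ g hg hζ h7).trans (le_sup (f := G) h8)) 2

end Pool.Agent.Helper20.NB
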