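import Pool.Agent.Helper20.NB.ClassC
import Pool.Agent.Helper36.DL.UnifLoc

/-! # The theorem for classes of complex affine maps -/

open MvPolynomial Finset

namespace Pool.Agent.Helper20.NB
open Pool.Agent.Helper11.ZP Pool.Agent.Helper11.ZU Pool.Agent.Helper20.ZD Pool.Agent.Helper20.ZT
  Pool.Agent.Helper20.ZT.Prim Pool.Agent.Helper11.LC
  Pool.Agent.Helper69.DL Pool.Agent.Helper36.DL Pool.Agent.Helper20.DL Pool.Agent.Helper22.DL

variable {n : ℕ} {v : AbsoluteValue ℂ ℝ} {p m M : ℕ} {lam a b c : Fin n → ℂ}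

lemma Cls.root (hv : IsNonarchimedean v) (hp : p.Prime) (hvp : v (p : ℂ) < 1) (hb : Base v p M b c)
    (h : Cls v p b c m lam a) : Root v p M m lam a := by
  obtain ⟨τ, δ, h1, h2, h3, h4⟩ := exists_teich hv hp hvp hb
  refine ⟨h.norm hv hvp hb, τ, h1, fun i => ?_⟩
  have e : (p : ℂ) ^ m * lam i - τ i = ((p : ℂ) ^ m * lam i - b i) + τ i * (p * δ i) := by
    rw [h4 i]
    ring
  rw [e]
  refine (hv _ _).trans (max_le (h.lam_near i).le ?_)
  rw [map_mul, map_mul, h2, one_mul]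
  exact mul_le_of_le_one_right (v.nonneg _) (h3 i)

/-- **the three cases** for a class of affine maps -/
theorem class_cases (hv : IsNonarchimedean v) (hp : p.Prime) (hvp : v (p : ℂ) < 1) {V : Set (Fin n → ℂ)}
    (hloc : LocalNear v p V) (hb : Base v p M b c) :
    ∃ B : ℕ, ∀ (m : ℕ) (lam a : Fin n → ℂ), Cls v p b c m lam a →
      (∀ z ∈ V, ∀ (i k l : Fin n) (N : ℕ), v (lam i * z i + a i) ≤ 1 → v (z k) = 1 → v (z l) = 1 →
        i ≠ k → i ≠ l → k ≠ l → CyclicIsog N (lam k * z k + a k) (lam l * z l + a l) → N ≤ B) ∧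
      (∀ z ∈ V, ∀ (i j k l : Fin n) (N N' : ℕ), v (z i) = 1 → v (z j) = 1 → v (z k) = 1 → v (z l) = 1 →
        i ≠ j → k ≠ l → l ≠ i → l ≠ j → CyclicIsog N (lam i * z i + a i) (lam j * z j + a j) →
          CyclicIsog N' (lam k * z k + a k) (lam l * z l + a l) → N' ≤ B) ∧
      (∀ z ∈ V, ∀ (e j k l : Fin n) (N N' : ℕ), v (z e) ≠ 1 → v (z j) = 1 → v (z k) = 1 → v (z l) = 1 →
        1 < v (lam e * z e + a e) → e ≠ j → e ≠ k → e ≠ l → k ≠ l → l ≠ j →
          CyclicIsog N (lam e * z e + a e) (lam j * z j + a j) →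
            CyclicIsog N' (lam k * z k + a k) (lam l * z l + a l) → N' ≤ B) := by
  obtain ⟨B₁, h1⟩ := rootA hb.pos hv hp hvp hloc.localRel
  obtain ⟨B₂, h2⟩ := classB hv hp hvp hloc hb
  obtain ⟨B₃, h3⟩ := rootC hb.pos hv hp hvp hloc.localRel (fun z hz i j hi hj => by
    by_contra hne
    rcases hloc.corner z hz i j hne with h1 | h1
    · exact hi h1
    · exact hj h1)
  refine ⟨max B₁ (max B₂ B₃), fun m lam a h => ⟨?_, ?_, ?_⟩⟩
  · exact fun z hz i k l N e1 e2 e3 e4 e5 e6 e7 =>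
      (h1 m lam a (h.root hv hp hvp hb) z hz i k l N e1 e2 e3 e4 e5 e6 e7).trans (le_max_left _ _)
  · exact fun z hz i j k l N N' e1 e2 e3 e4 e5 e6 e7 e8 e9 e10 =>
      (h2 m lam a h z hz i j k l N N' e1 e2 e3 e4 e5 e6 e7 e8 e9 e10).trans
        ((le_max_left _ _).trans (le_max_right _ _))
  · exact fun z hz e j k l N N' e1 e2 e3 e4 e5 e6 e7 e8 e9 e10 e11 e12 =>
      (h3 m lam a (h.root hv hp hvp hb) z hz e j k l N N' e1 e2 e3 e4 e5 e6 e7 e8 e9 e10 e11 e12).trans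
        ((le_max_right _ _).trans (le_max_right _ _))

/-- **the theorem on complex affine images of a curve `C ⊆ V`**, `V` near a good curve -/
theorem class_theorem (hv : IsNonarchimedean v) (hp : p.Prime) (hvp : v (p : ℂ) < 1)
    {V C : Set (Fin n → ℂ)} (hCV : C ⊆ V) (hC : IsSubvariety C) (h1 : dim C = 1)
    (hc : ∀ (i : Fin n) (c : ℂ), ∃ z ∈ C, z i ≠ c) (hcount : Count C) (hloc : LocalNear v p V)
    (hb : Base v p M b c) :
    ∃ B : ℕ, ∀ (m : ℕ) (lam a : Fin n → ℂ), Cls v p b c m lam a →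
        {x ∈ affine lam a C | ∃ S : SpecialData n, dim S.carrier + 2 ≤ n ∧ x ∈ S.carrier}.Finite ∧
        {x ∈ affine lam a C | ∃ S : SpecialData n, dim S.carrier + 2 ≤ n ∧ x ∈ S.carrier}.ncard ≤ B ∧
        {A | IsAtypical (affine lam a C) A ∧
          ∀ B, IsAtypical (affine lam a C) B → A ⊆ B → B = A}.Finite ∧
        ∀ S : SpecialData n, dim S.carrier < n → ¬ affine lam a C ⊆ S.carrier := by
  classical
  have hvp0 : 0 < v (p : ℂ) := (AbsoluteValue.pos_iff v).2 (by exact_mod_cast hp.ne_zero)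
  obtain ⟨K, hK⟩ := class_cases hv hp hvp hloc hb
  -- the number of points
  have hcount' : ∀ q : Fin n × Fin n × ℕ, ∃ B : ℕ, ∀ (hN : 0 < q.2.2), q.1 ≠ q.2.1 → ∀ l₀ a₀ l₁ a₁ : ℂ,
      (∃ z ∈ C, eval ![z q.1, z q.2.1] (affSubst q.2.2 hN l₀ a₀ l₁ a₁) ≠ 0) →
        {z ∈ C | eval ![z q.1, z q.2.1] (affSubst q.2.2 hN l₀ a₀ l₁ a₁) = 0}.Finite ∧
          {z ∈ C | eval ![z q.1, z q.2.1] (affSubst q.2.2 hN l₀ a₀ l₁ a₁) = 0}.ncard ≤ B := by
    rintro ⟨k, l, N⟩
    by_cases hN : 0 < N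
    · by_cases hkl : k = l
      · exact ⟨0, fun _ h => absurd hkl h⟩
      · obtain ⟨B, hB⟩ := hcount k l (hypPoly (n := 2) N hN 0 1).totalDegree hkl
        refine ⟨B, fun _ _ l₀ a₀ l₁ a₁ h => hB _ ?_ ?_ h⟩
        · exact (degreeOf_le_totalDegree _ _).trans (totalDegree_affSubst_le hN l₀ a₀ l₁ a₁)
        · exact (degreeOf_le_totalDegree _ _).trans (totalDegree_affSubst_le hN l₀ a₀ l₁ a₁)
    · exact ⟨0, fun h => absurd h hN⟩
  choose Bc hBc using hcount'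
  set I : Finset (Fin n × Fin n × ℕ) := (univ : Finset (Fin n)) ×ˢ (univ : Finset (Fin n)) ×ˢ Finset.Icc 1 K with hI
  refine ⟨∑ q ∈ I, Bc q, fun m lam a h => ?_⟩
  have hn := h.norm hv hvp hb
  have hlam := hn.one_lt hvp0 hvp
  have ha := hn.a_lt hvp0 hvp
  have hl0 := hn.lam_ne hvp0
  obtain ⟨hA, hB, hC'⟩ := hK m lam a h
  have hdata : ∀ x ∈ affine lam a C, ∃ E : Set (Fin n), PointData K E x := by
    intro x hx
    exact pointData_loc hv hlam ha (fun z hz => hloc.corner z (hCV hz))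
      (fun z hz => hA z (hCV hz)) (fun z hz => hB z (hCV hz)) (fun z hz => hC' z (hCV hz)) hx
  have hsub := isSubvariety_affine hl0 a hC
  have hdim : dim (affine lam a C) = 1 := by rw [dim_affine hl0, h1]
  obtain ⟨c1, c2, c3⟩ := conclude hsub hdim (fun i c => by
    obtain ⟨z, hz, hzc⟩ := hc i ((c - a i) / lam i)
    refine ⟨fun j => lam j * z j + a j, ?_, fun h => hzc ?_⟩
    · change (fun j => (lam j * z j + a j - a j) / lam j) ∈ C
      rw [aff_inv hl0]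
      exact hz
    · rw [eq_div_iff (hl0 i), ← h]
      ring) hdata
  refine ⟨c1, ?_, c2, c3⟩
  -- the number of points
  set T : Fin n × Fin n × ℕ → Set (Fin n → ℂ) := fun q =>
    if hq : 0 < q.2.2 ∧ q.1 ≠ q.2.1 then
      (fun z i => lam i * z i + a i) '' {z ∈ C | eval ![z q.1, z q.2.1]
        (affSubst q.2.2 hq.1 (lam q.1) (a q.1) (lam q.2.1) (a q.2.1)) = 0} else ∅ with hT
  have hT1 : ∀ q, (T q).Finite ∧ (T q).ncard ≤ Bc q := by
    intro q
    by_cases hq : 0 < q.2.2 ∧ q.1 ≠ q.2.1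
    · have h2 : T q = (fun z i => lam i * z i + a i) '' {z ∈ C | eval ![z q.1, z q.2.1]
          (affSubst q.2.2 hq.1 (lam q.1) (a q.1) (lam q.2.1) (a q.2.1)) = 0} := by
        rw [hT]
        exact dif_pos hq
      have h3 : ∃ z ∈ C, eval ![z q.1, z q.2.1]
          (affSubst q.2.2 hq.1 (lam q.1) (a q.1) (lam q.2.1) (a q.2.1)) ≠ 0 := by
        by_contra hcon
        push Not at hcon
        refine c3 _ (dim_hypData hq.1 hq.2) fun x hx => (mem_hypData hq.1 hq.2 x).2 ?_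
        have h4 := (eval_affSubst hq.1 _ _ _ _ _ _).1 (hcon _ hx)
        have h5 : ∀ i, lam i * ((x i - a i) / lam i) + a i = x i := fun i => by
          rw [mul_div_cancel₀ _ (hl0 i), sub_add_cancel]
        rwa [h5, h5] at h4
      obtain ⟨h4, h5⟩ := hBc q hq.1 hq.2 _ _ _ _ h3
      rw [h2]
      exact ⟨h4.image _, (Set.ncard_image_le h4).trans h5⟩
    · have h2 : T q = ∅ := by
        rw [hT]
        exact dif_neg hq
      rw [h2]
      exact ⟨Set.finite_empty, by rw [Set.ncard_empty]; exact Nat.zero_le _⟩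
  have hsubset : {x ∈ affine lam a C | ∃ S : SpecialData n, dim S.carrier + 2 ≤ n ∧ x ∈ S.carrier} ⊆
      ⋃ q ∈ I, T q := by
    rintro x ⟨hx, S, hS, hxS⟩
    obtain ⟨E, hE⟩ := hdata x hx
    obtain ⟨i, j, N, hij, hN, hNM, hiso⟩ := exists_level hE S hxS hS
    rw [Set.mem_iUnion₂]
    refine ⟨(i, j, N), by rw [hI]; simp [hNM]; omega, ?_⟩
    have h2 : T (i, j, N) = (fun z i => lam i * z i + a i) '' {z ∈ C | eval ![z i, z j]
        (affSubst N hN (lam i) (a i) (lam j) (a j)) = 0} := by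
      rw [hT]
      exact dif_pos ⟨hN, hij⟩
    rw [h2]
    have h5 : ∀ i, lam i * ((x i - a i) / lam i) + a i = x i := fun i => by
      rw [mul_div_cancel₀ _ (hl0 i), sub_add_cancel]
    refine ⟨fun i => (x i - a i) / lam i, ⟨hx, ?_⟩, funext h5⟩
    rw [eval_affSubst hN, h5, h5]
    exact hiso
  calc {x ∈ affine lam a C | ∃ S : SpecialData n, dim S.carrier + 2 ≤ n ∧ x ∈ S.carrier}.ncard
      ≤ (⋃ q ∈ I, T q).ncard :=
        Set.ncard_le_ncard hsubset (Set.Finite.biUnion I.finite_toSet fun q _ => (hT1 q).1)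
    _ ≤ ∑ q ∈ I, (T q).ncard := I.set_ncard_biUnion_le T
    _ ≤ ∑ q ∈ I, Bc q := Finset.sum_le_sum fun q _ => (hT1 q).2

end Pool.Agent.Helper20.NB
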