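import Pool.Agent.Helper20.DL.NbhC

/-! # Curves near a good curve modulo `p`: interfaces -/

open MvPolynomial

namespace Pool.Agent.Helper20.NB
open Pool.Agent.Helper69.DL Pool.Agent.Helper20.DL

variable {n : ℕ}

/-- what is known at the place `v` on the set `V`: at each point at most one coordinate is not a unit; the
relations between the monomials with exponents in `{-1, 0, 1}` are good modulo `p`; the first order term is
given by a polynomial `W` with integral coefficients in the coordinates and their inverses -/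
structure LocalNear (v : AbsoluteValue ℂ ℝ) (p : ℕ) (V : Set (Fin n → ℂ)) : Prop where
  /-- at most one coordinate is not a unit -/
  corner : ∀ z ∈ V, ∀ i j, i ≠ j → v (z i) = 1 ∨ v (z j) = 1
  /-- the relations -/
  rel : ∀ a b : Fin n → ℤ, (∀ i, |a i| ≤ 1) → (∀ i, |b i| ≤ 1) →
    (∀ s t : ℤ, (∀ i, s * a i + t * b i = 0) → s = 0 ∧ t = 0) →
      ∃ (H : MvPolynomial (Fin 2) ℤ) (W : MvPolynomial (Fin n ⊕ Fin n) ℂ), GoodRel v p H ∧
        HoldsMod v p H V a b ∧ (∀ m, v (W.coeff m) ≤ 1) ∧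
        (∀ i, a i = 0 → b i = 0 → Sum.inl i ∉ W.vars ∧ Sum.inr i ∉ W.vars) ∧
        ∀ z ∈ V, (∀ i, v (z i) = 1 ∨ (a i = 0 ∧ b i = 0)) →
          v (ev H (∏ i, z i ^ a i) (∏ i, z i ^ b i) - p * eval (Sum.elim z fun i => (z i)⁻¹) W) < v (p : ℂ)

end Pool.Agent.Helper20.NB
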