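import Pool.Agent.Helper20.NB.Core
import Pool.Agent.Helper69.DL.Rel2

/-! # Orders of torsion points near a curve to the first order -/

open MvPolynomial

namespace Pool.Agent.Helper20.NB
open Pool.Agent.Helper20.ZD Pool.Agent.Helper20.DL Pool.Agent.Helper69.DL Pool.Agent.Helper81.DL
  Pool.Agent.Helper22.DL

variable {v : AbsoluteValue ℂ ℝ}

lemma wev_le (hv : IsNonarchimedean v) {ι : Type} (W : MvPolynomial (ι ⊕ Fin 2) (ball hv)) {u : ι → ℂ}
    (hu : ∀ i, v (u i) ≤ 1) {x y : ℂ} (hx : v x ≤ 1) (hy : v y ≤ 1) : v (wev hv W u x y) ≤ 1 := by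
  have h1 : wev hv W u x y ∈ ball hv := by
    refine eval₂_mem (fun m _ => (W.coeff m).2) ?_
    rintro (i | i)
    · exact hu i
    · fin_cases i
      · exact hx
      · exact hy
  exact h1

lemma eval₂_sub_le (hv : IsNonarchimedean v) {τ : Type} (W : MvPolynomial τ (ball hv)) {z w : τ → ℂ}
    (hz : ∀ i, v (z i) ≤ 1) (hw : ∀ i, v (w i) ≤ 1) {r : ℝ} (hr0 : 0 ≤ r) (hzw : ∀ i, v (z i - w i) ≤ r) :
    v (eval₂ (ball hv).subtype z W - eval₂ (ball hv).subtype w W) ≤ r := by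
  induction W using MvPolynomial.induction_on with
  | C a => rw [eval₂_C, eval₂_C, sub_self, map_zero]; exact hr0
  | add f g hf hg =>
    rw [eval₂_add, eval₂_add, add_sub_add_comm]
    exact (hv _ _).trans (max_le hf hg)
  | mul_X f i hf =>
    rw [eval₂_mul, eval₂_mul, eval₂_X, eval₂_X]
    have e : eval₂ (ball hv).subtype z f * z i - eval₂ (ball hv).subtype w f * w i =
      (eval₂ (ball hv).subtype z f - eval₂ (ball hv).subtype w f) * z i +
        eval₂ (ball hv).subtype w f * (z i - w i) := by ring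
    rw [e]
    refine (hv _ _).trans (max_le ?_ ?_)
    · rw [map_mul]
      exact (mul_le_of_le_one_right (v.nonneg _) (hz i)).trans hf
    · rw [map_mul]
      have h1 : eval₂ (ball hv).subtype w f ∈ ball hv := eval₂_mem (fun m _ => (f.coeff m).2) fun i => hw i
      exact (mul_le_of_le_one_left (v.nonneg _) h1).trans (hzw i)

lemma wev_sub_le (hv : IsNonarchimedean v) {ι : Type} (W : MvPolynomial (ι ⊕ Fin 2) (ball hv)) {u : ι → ℂ}
    (hu : ∀ i, v (u i) ≤ 1) {x y x' y' : ℂ} (hx : v x ≤ 1) (hy : v y ≤ 1) (hx' : v x' ≤ 1) (hy' : v y' ≤ 1)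
    {r : ℝ} (hr0 : 0 ≤ r) (h1 : v (x - x') ≤ r) (h2 : v (y - y') ≤ r) :
    v (wev hv W u x y - wev hv W u x' y') ≤ r := by
  refine eval₂_sub_le hv W ?_ ?_ hr0 ?_
  · rintro (i | i)
    · exact hu i
    · fin_cases i
      · exact hx
      · exact hy
  · rintro (i | i)
    · exact hu i
    · fin_cases i
      · exact hx'
      · exact hy'
  · rintro (i | i)
    · change v (u i - u i) ≤ r
      rw [sub_self, map_zero]
      exact hr0
    · fin_cases i
      · exact h1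
      · exact h2

/-- an integral polynomial in `x`, `y` -/
noncomputable def emb2 (hv : IsNonarchimedean v) (ι : Type) (F : MvPolynomial (Fin 2) ℤ) :
    MvPolynomial (ι ⊕ Fin 2) (ball hv) := rename Sum.inr (map (Int.castRingHom (ball hv)) F)

lemma wev_emb2 (hv : IsNonarchimedean v) {ι : Type} (F : MvPolynomial (Fin 2) ℤ) (u : ι → ℂ) (x y : ℂ) :
    wev hv (emb2 hv ι F) u x y = aeval ![x, y] F := by
  rw [wev, emb2, eval₂_rename, eval₂_map, aeval_def]
  congr 1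

lemma wev_mul (hv : IsNonarchimedean v) {ι : Type} (W W' : MvPolynomial (ι ⊕ Fin 2) (ball hv)) (u : ι → ℂ)
    (x y : ℂ) : wev hv (W * W') u x y = wev hv W u x y * wev hv W' u x y := eval₂_mul _ _

lemma wev_add (hv : IsNonarchimedean v) {ι : Type} (W W' : MvPolynomial (ι ⊕ Fin 2) (ball hv)) (u : ι → ℂ)
    (x y : ℂ) : wev hv (W + W') u x y = wev hv W u x y + wev hv W' u x y := eval₂_add _ _

lemma wev_sub (hv : IsNonarchimedean v) {ι : Type} (W W' : MvPolynomial (ι ⊕ Fin 2) (ball hv)) (u : ι → ℂ)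
    (x y : ℂ) : wev hv (W - W') u x y = wev hv W u x y - wev hv W' u x y :=
  map_sub (eval₂Hom (ball hv).subtype (Sum.elim u ![x, y])) W W'

/-- **the orders of torsion points near the curve to the first order are bounded** -/
theorem torsion_near (hv : IsNonarchimedean v) {p : ℕ} (hp : p.Prime) (hvp : v (p : ℂ) < 1)
    {H : MvPolynomial (Fin 2) ℤ} (hH : GoodRel v p H) {ι : Type} {G : ι → MvPolynomial (Fin 2) ℤ}
    (hG : ∀ i, GoodRel v p (G i)) (jj : ι → Fin 2) (W S₀ S₁ : MvPolynomial (ι ⊕ Fin 2) (ball hv)) :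
    ∃ B : ℕ, ∀ (x y : ℂ) (u : ι → ℂ) (ζ₁ ζ₂ : ℂ) (g₁ g₂ : ℕ), 0 < g₁ → 0 < g₂ → IsPrimitiveRoot ζ₁ g₁ →
      IsPrimitiveRoot ζ₂ g₂ → v x ≤ 1 → v y ≤ 1 → (∀ i, v (u i) ≤ 1) →
      (∀ i, v (ev (G i) (u i) (![x, y] (jj i))) < 1) → v (ev H x y - p * wev hv W u x y) < v (p : ℂ) →
      v (x - ζ₁ * (1 + p * wev hv S₀ u x y)) < v (p : ℂ) →
      v (y - ζ₂ * (1 + p * wev hv S₁ u x y)) < v (p : ℂ) → g₁ ≤ B ∧ g₂ ≤ B := by
  have hvp0 : 0 < v (p : ℂ) := (AbsoluteValue.pos_iff v).2 (by exact_mod_cast hp.ne_zero)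
  have hvp2 : v (p : ℂ) * v (p : ℂ) < v (p : ℂ) := mul_lt_of_lt_one_left hvp0 hvp
  set Wc : MvPolynomial (ι ⊕ Fin 2) (ball hv) := W - (emb2 hv ι (X 0 * pderiv 0 H) * S₀ +
    emb2 hv ι (X 1 * pderiv 1 H) * S₁) with hWc
  have hfin := finite_core hv hp hvp hH hG jj Wc
  set F := hfin.toFinset with hF
  refine ⟨F.sup (fun z => orderOf z.1) ⊔ F.sup (fun z => orderOf z.2), ?_⟩
  intro x y u ζ₁ ζ₂ g₁ g₂ hg₁ hg₂ hζ₁ hζ₂ hxv hyv hu hGu hxy hx hy
  have hz1 : v ζ₁ = 1 := val_root hg₁ hζ₁.pow_eq_one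
  have hz2 : v ζ₂ = 1 := val_root hg₂ hζ₂.pow_eq_one
  have nx := near_of_first hv hvp0 hz1 (wev_le hv S₀ hu hxv hyv) hx
  have ny := near_of_first hv hvp0 hz2 (wev_le hv S₁ hu hxv hyv) hy
  have hxyle : v (ev H x y) ≤ v (p : ℂ) := by
    rw [show ev H x y = (ev H x y - p * wev hv W u x y) + p * wev hv W u x y by ring]
    refine (hv _ _).trans (max_le hxy.le ?_)
    rw [map_mul]
    exact mul_le_of_le_one_right hvp0.le (wev_le hv W hu hxv hyv)
  have hev : v (ev H ζ₁ ζ₂) ≤ v (p : ℂ) := by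
    have h1 := ev_sub_le hv H hxv hz1.le hyv hz2.le
    rw [show ev H ζ₁ ζ₂ = ev H x y + (-(ev H x y - ev H ζ₁ ζ₂)) by ring]
    refine (hv _ _).trans (max_le hxyle ?_)
    rw [map_neg_eq_map]
    exact h1.trans (max_le nx ny)
  have hpow1 : ζ₁ ^ (g₁ * g₂) = 1 := by rw [pow_mul, hζ₁.pow_eq_one, one_pow]
  have hpow2 : ζ₂ ^ (g₁ * g₂) = 1 := by rw [mul_comm, pow_mul, hζ₂.pow_eq_one, one_pow]
  have hnd := not_dvd_orderOf hv hp hvp (noCoset_of hH.noCoset)
    (D := H.totalDegree) le_rfl (large_of hH.large) (Nat.mul_pos hg₁ hg₂) hpow1 hpow2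
    (by rw [← ev_eq_aeval]; exact hev)
  rw [← hζ₁.eq_orderOf, ← hζ₂.eq_orderOf] at hnd
  have hmem : ((ζ₁, ζ₂) : ℂ × ℂ) ∈ F := by
    rw [hF, Set.Finite.mem_toFinset]
    refine ⟨⟨g₁ * g₂, ?_, hpow1, hpow2⟩, u, hu, ?_, ?_⟩
    · exact Nat.Coprime.mul_left ((Nat.Prime.coprime_iff_not_dvd hp).2 hnd.1).symm
        ((Nat.Prime.coprime_iff_not_dvd hp).2 hnd.2).symm
    · intro i
      have h1 := hGu i
      have key : ∀ {w w' : ℂ}, v w ≤ 1 → v w' ≤ 1 → v (w - w') ≤ v (p : ℂ) → v (ev (G i) (u i) w) < 1 →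
          v (ev (G i) (u i) w') < 1 := by
        intro w w' hw hw' hww h0
        have h3 := ev_sub_le hv (G i) (hu i) (hu i) hw hw'
        rw [sub_self, map_zero] at h3
        rw [show ev (G i) (u i) w' = ev (G i) (u i) w + (-(ev (G i) (u i) w - ev (G i) (u i) w')) by ring]
        refine (hv _ _).trans_lt (max_lt h0 ?_)
        rw [map_neg_eq_map]
        exact h3.trans_lt (max_lt one_pos (hww.trans_lt hvp))
      generalize jj i = j at h1 ⊢
      fin_cases j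
      · exact key hxv hz1.le nx h1
      · exact key hyv hz2.le ny h1
    · -- Taylor
      have hη : ∀ i, v (![ζ₁, ζ₂] i) ≤ 1 := by
        intro i; fin_cases i
        · exact hz1.le
        · exact hz2.le
      have hξ : ∀ i, v (![x, y] i) ≤ 1 := by
        intro i; fin_cases i
        · exact hxv
        · exact hyv
      have hd : ∀ i, v (![x, y] i - ![ζ₁, ζ₂] i) ≤ v (p : ℂ) := by
        intro i; fin_cases i
        · exact nx
        · exact ny
      have ht := taylor_first hv H hξ hη hvp0.le hd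
      have hA0 : v (aeval ![ζ₁, ζ₂] (pderiv 0 H)) ≤ 1 := v_aeval_le hv _ hη
      have hA1 : v (aeval ![ζ₁, ζ₂] (pderiv 1 H)) ≤ 1 := v_aeval_le hv _ hη
      rw [← ev_eq_aeval H, ← ev_eq_aeval H] at ht
      simp only [Matrix.cons_val_zero, Matrix.cons_val_one] at ht
      have hWcv : wev hv Wc u ζ₁ ζ₂ = wev hv W u ζ₁ ζ₂ - (ζ₁ * aeval ![ζ₁, ζ₂] (pderiv 0 H) *
          wev hv S₀ u ζ₁ ζ₂ + ζ₂ * aeval ![ζ₁, ζ₂] (pderiv 1 H) * wev hv S₁ u ζ₁ ζ₂) := by
        rw [hWc, wev_sub, wev_add, wev_mul, wev_mul, wev_emb2, wev_emb2, map_mul, map_mul, aeval_X, aeval_X]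
        rfl
      have dW := wev_sub_le hv W hu hxv hyv hz1.le hz2.le hvp0.le nx ny
      have dS₀ := wev_sub_le hv S₀ hu hxv hyv hz1.le hz2.le hvp0.le nx ny
      have dS₁ := wev_sub_le hv S₁ hu hxv hyv hz1.le hz2.le hvp0.le nx ny
      set A0 := aeval ![ζ₁, ζ₂] (pderiv 0 H) with hA0'
      set A1 := aeval ![ζ₁, ζ₂] (pderiv 1 H) with hA1'
      change v (ev H ζ₁ ζ₂ - p * wev hv Wc u ζ₁ ζ₂) < v (p : ℂ)
      have e : ev H ζ₁ ζ₂ - p * wev hv Wc u ζ₁ ζ₂ = (ev H x y - p * wev hv W u x y) +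
          (p * (wev hv W u x y - wev hv W u ζ₁ ζ₂) +
          (-(A0 * ((x - ζ₁ * (1 + p * wev hv S₀ u x y)) + p * (ζ₁ * (wev hv S₀ u x y - wev hv S₀ u ζ₁ ζ₂)))) +
          (-(A1 * ((y - ζ₂ * (1 + p * wev hv S₁ u x y)) + p * (ζ₂ * (wev hv S₁ u x y - wev hv S₁ u ζ₁ ζ₂)))) +
          (-(ev H x y - ev H ζ₁ ζ₂ - (A0 * (x - ζ₁) + A1 * (y - ζ₂))))))) := by
        rw [hWcv]
        ring
      have small : ∀ {A s t : ℂ}, v A ≤ 1 → v s < v (p : ℂ) → v t ≤ v (p : ℂ) →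
          v (-(A * (s + p * t))) < v (p : ℂ) := by
        intro A s t hA hs ht
        rw [map_neg_eq_map, map_mul]
        refine lt_of_le_of_lt (mul_le_of_le_one_left (v.nonneg _) hA) ((hv _ _).trans_lt (max_lt hs ?_))
        rw [map_mul]
        exact lt_of_le_of_lt (mul_le_mul_of_nonneg_left ht hvp0.le) hvp2
      rw [e]
      refine (hv _ _).trans_lt (max_lt hxy ((hv _ _).trans_lt (max_lt ?_ ((hv _ _).trans_lt (max_lt ?_
        ((hv _ _).trans_lt (max_lt ?_ ?_)))))))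
      · rw [map_mul]
        exact lt_of_le_of_lt (mul_le_mul_of_nonneg_left dW hvp0.le) hvp2
      · exact small hA0 hx (by rw [map_mul, hz1, one_mul]; exact dS₀)
      · exact small hA1 hy (by rw [map_mul, hz2, one_mul]; exact dS₁)
      · rw [map_neg_eq_map]
        rw [sq] at ht
        exact ht.trans_lt hvp2
  constructor
  · refine le_sup_of_le_left ?_
    have h1 := Finset.le_sup (f := fun z : ℂ × ℂ => orderOf z.1) hmem
    simp only [← hζ₁.eq_orderOf] at h1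
    exact h1
  · refine le_sup_of_le_right ?_
    have h1 := Finset.le_sup (f := fun z : ℂ × ℂ => orderOf z.2) hmem
    simp only [← hζ₂.eq_orderOf] at h1
    exact h1

end Pool.Agent.Helper20.NB
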