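import Pool.Agent.Helper20.NB.Teich
import Pool.Agent.Helper20.NB.Torsion
import Pool.Agent.Helper20.NB.Defs
import Pool.Agent.Helper22.DL.UnifAB

/-! # Classes of affine maps -/

open MvPolynomial Finset

namespace Pool.Agent.Helper20.NB
open Pool.Agent.Helper11.ZP Pool.Agent.Helper11.ZU Pool.Agent.Helper20.ZD Pool.Agent.Helper11.LC
  Pool.Agent.Helper69.DL Pool.Agent.Helper36.DL Pool.Agent.Helper20.DL Pool.Agent.Helper22.DL

variable {n : ℕ} {v : AbsoluteValue ℂ ℝ} {p m M : ℕ} {lam a b c : Fin n → ℂ}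

/-- units `b_i` which are congruent to roots of unity modulo `p`, and `c_i` divisible by `p` -/
structure Base (v : AbsoluteValue ℂ ℝ) (p M : ℕ) (b c : Fin n → ℂ) : Prop where
  /-- the order of the roots of unity -/
  pos : 0 < M
  /-- prime to `p` -/
  coprime : M.Coprime p
  /-- units -/
  unit : ∀ i, v (b i) = 1
  /-- congruent to roots of unity -/
  root : ∀ i, v (b i ^ M - 1) ≤ v (p : ℂ)
  /-- divisible by `p` -/
  small : ∀ i, v (c i) ≤ v (p : ℂ)

/-- the affine maps `z_i ↦ lam_i z_i + a_i` with `p ^ m lam_i` near `b_i` and `p ^ m a_i` near `c_i` -/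
structure Cls (v : AbsoluteValue ℂ ℝ) (p : ℕ) (b c : Fin n → ℂ) (m : ℕ) (lam a : Fin n → ℂ) : Prop where
  /-- `m` is positive -/
  one_le : 1 ≤ m
  /-- `p ^ m lam_i` is near `b_i` -/
  lam_near : ∀ i, v ((p : ℂ) ^ m * lam i - b i) < v (p : ℂ)
  /-- `p ^ m a_i` is near `c_i` -/
  a_near : ∀ i, v ((p : ℂ) ^ m * a i - c i) < v (p : ℂ)

/-- the affine maps in normal form -/
structure Norm (v : AbsoluteValue ℂ ℝ) (p m : ℕ) (lam a : Fin n → ℂ) : Prop where
  /-- `m` is positive -/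
  one_le : 1 ≤ m
  /-- units -/
  lam_one : ∀ i, v ((p : ℂ) ^ m * lam i) = 1
  /-- divisible by `p` -/
  a_le : ∀ i, v ((p : ℂ) ^ m * a i) ≤ v (p : ℂ)

lemma Cls.norm (hv : IsNonarchimedean v) (hvp : v (p : ℂ) < 1) (hb : Base v p M b c) (h : Cls v p b c m lam a) :
    Norm v p m lam a := by
  refine ⟨h.one_le, fun i => ?_, fun i => ?_⟩
  · rw [show (p : ℂ) ^ m * lam i = b i + ((p : ℂ) ^ m * lam i - b i) by ring,
      v_add_eq hv (by rw [hb.unit i]; exact (h.lam_near i).trans hvp), hb.unit i]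
  · rw [show (p : ℂ) ^ m * a i = ((p : ℂ) ^ m * a i - c i) + c i by ring]
    exact (hv _ _).trans (max_le (h.a_near i).le (hb.small i))

namespace Norm
variable (hvp0 : 0 < v (p : ℂ)) (h : Norm v p m lam a)
include hvp0 h
set_option linter.unusedSectionVars false

lemma pow_le (hvp : v (p : ℂ) < 1) : v (p : ℂ) ^ m ≤ v (p : ℂ) := by
  have := pow_le_pow_of_le_one hvp0.le hvp.le h.one_le
  rwa [pow_one] at this

lemma v_lam (i : Fin n) : v (lam i) = (v (p : ℂ) ^ m)⁻¹ := by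
  refine eq_inv_of_mul_eq_one_left ?_
  have := h.lam_one i
  rwa [map_mul, map_pow, mul_comm] at this

lemma lam_ne (i : Fin n) : lam i ≠ 0 := by
  rw [← AbsoluteValue.ne_zero_iff v, h.v_lam hvp0]
  exact inv_ne_zero (pow_pos hvp0 m).ne'

lemma v_a (i : Fin n) : v (a i) * v (p : ℂ) ^ m ≤ v (p : ℂ) := by
  have := h.a_le i
  rwa [map_mul, map_pow, mul_comm] at this

lemma v_x (hv : IsNonarchimedean v) (hvp : v (p : ℂ) < 1) {z : Fin n → ℂ} {r : Fin n}
    (hr : v (z r) = 1) : v (lam r * z r + a r) = (v (p : ℂ) ^ m)⁻¹ := by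
  have h1 : v (lam r * z r) = (v (p : ℂ) ^ m)⁻¹ := by rw [map_mul, hr, mul_one, h.v_lam hvp0]
  have h2 : v (a r) < (v (p : ℂ) ^ m)⁻¹ := by
    rw [← one_div, lt_div_iff₀ (pow_pos hvp0 m)]
    exact (h.v_a hvp0 r).trans_lt hvp
  rw [v_add_eq hv (by rw [h1]; exact h2), h1]

lemma v_ratio (i j : Fin n) : v (lam j / lam i) = 1 := by
  rw [map_div₀, h.v_lam hvp0, h.v_lam hvp0, div_self (inv_ne_zero (pow_pos hvp0 m).ne')]

lemma one_lt (hvp : v (p : ℂ) < 1) (i : Fin n) : 1 < v (lam i) := by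
  rw [h.v_lam hvp0]
  exact (one_lt_inv₀ (pow_pos hvp0 m)).2 ((h.pow_le hvp0 hvp).trans_lt hvp)

lemma a_lt (hvp : v (p : ℂ) < 1) (i : Fin n) : v (a i) < v (lam i) := by
  rw [h.v_lam hvp0, ← one_div, lt_div_iff₀ (pow_pos hvp0 m)]
  exact (h.v_a hvp0 i).trans_lt hvp

/-- the constant of the first order term is integral -/
lemma v_beta (hv : IsNonarchimedean v) (hvp : v (p : ℂ) < 1) (t : Fin n) : v (betaC lam a p t) ≤ 1 := by
  have hc0 := pow_pos hvp0 m
  unfold betaC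
  rw [map_div₀, map_mul, h.v_lam hvp0]
  rw [div_le_one (mul_pos (inv_pos.2 hc0) hvp0), ← div_eq_inv_mul, le_div_iff₀ hc0]
  rcases le_max_iff.1 (v_sub_le hv (a t) 744) with h1 | h1
  · exact (mul_le_mul_of_nonneg_right h1 hc0.le).trans (h.v_a hvp0 t)
  · have v744 : v (744 : ℂ) ≤ 1 := by exact_mod_cast v_ofNat_le hv 744
    refine (mul_le_mul_of_nonneg_right (h1.trans v744) hc0.le).trans ?_
    rw [one_mul]
    exact h.pow_le hvp0 hvp

/-- one pair of isogenous coordinates, with the first order term -/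
lemma ratio_near (hv : IsNonarchimedean v) (hvp : v (p : ℂ) < 1) {z : Fin n → ℂ} {i j : Fin n}
    (hi : v (z i) = 1) (hj : v (z j) = 1) {N : ℕ} (hN : CyclicIsog N (lam i * z i + a i) (lam j * z j + a j)) :
    ∃ (g : ℕ) (ζ : ℂ), 0 < g ∧ N = g ^ 2 ∧ IsPrimitiveRoot ζ g ∧
      v (z i / z j - lam j / lam i * ζ * (1 + p * (betaC lam a p j * (z j)⁻¹ +
        (-betaC lam a p i) * (z i)⁻¹))) < v (p : ℂ) := by
  have hp0 := hvp0
  have hpC : (p : ℂ) ≠ 0 := (AbsoluteValue.pos_iff v).1 hp0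
  have hN0 : 0 < N := Nat.pos_of_ne_zero fun h0 => not_isog_zero (h0 ▸ hN)
  have hc0 : 0 < v (p : ℂ) ^ m := pow_pos hp0 m
  have hcq := h.pow_le hp0 hvp
  have hl0 := h.lam_ne hp0
  have hz0 : ∀ {r}, v (z r) = 1 → z r ≠ 0 := fun {r} hr h0 => by
    rw [h0, map_zero] at hr
    exact zero_ne_one hr
  have hvx : ∀ {r}, v (z r) = 1 → v (lam r * z r + a r) = (v (p : ℂ) ^ m)⁻¹ := fun {r} hr =>
    h.v_x hp0 hv hvp hr
  obtain ⟨g, ζ, hg, hNg, hζ, hd⟩ := sharp_rigid hv (x := lam i * z i + a i) (y := lam j * z j + a j)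
    (by rw [hvx hi]; exact (one_lt_inv₀ hc0).2 (hcq.trans_lt hvp)) (by rw [hvx hi, hvx hj]) hN0 hN
  refine ⟨g, ζ, hg, hNg, hζ, ?_⟩
  rw [hvx hi, inv_inv] at hd
  -- the small quantities
  set w : Fin n → ℂ := fun r => (a r - 744) / (lam r * z r) with hw
  have hwv : ∀ {r}, v (z r) = 1 → v (w r) ≤ v (p : ℂ) := fun {r} hr => by
    have h1 : w r = betaC lam a p r * p * (z r)⁻¹ := by
      simp only [hw, betaC]
      have := hl0 r
      have := hz0 hr
      field_simp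
    rw [h1, map_mul, map_mul, map_inv₀, hr, inv_one, mul_one]
    exact mul_le_of_le_one_left hp0.le (h.v_beta hp0 hv hvp r)
  have hx : ∀ {r}, v (z r) = 1 → (lam r * z r + a r - 744 : ℂ) = lam r * z r * (1 + w r) := fun {r} hr => by
    simp only [hw]
    have := hl0 r
    have := hz0 hr
    field_simp
    ring
  have h1w : ∀ {r}, v (z r) = 1 → v (1 + w r) = 1 := fun {r} hr => by
    rw [v_add_eq hv (by rw [map_one]; exact (hwv hr).trans_lt hvp), map_one]
  have h1w0 : ∀ {r}, v (z r) = 1 → 1 + w r ≠ 0 := fun {r} hr => by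
    rw [← AbsoluteValue.ne_zero_iff v, h1w hr]
    exact one_ne_zero
  have hμ : v (lam j / lam i) = 1 := h.v_ratio hp0 i j
  have hvζ : v ζ = 1 := by
    have h2 : v ζ ^ g = 1 := by rw [← map_pow, hζ.pow_eq_one, map_one]
    exact (pow_eq_one_iff_of_nonneg (AbsoluteValue.nonneg v _) hg.ne').1 h2
  set ε := (lam i * z i + a i - 744 : ℂ) / (lam j * z j + a j - 744) - ζ with hε
  have hεv : v ε ≤ v (p : ℂ) ^ 2 := hd.trans (pow_le_pow_left₀ hc0.le hcq 2)
  have e1 : z i / z j = lam j / lam i * (ζ + ε) * (1 + w j) / (1 + w i) := by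
    rw [hε, hx hi, hx hj]
    have := hl0 i
    have := hl0 j
    have := hz0 hi
    have := hz0 hj
    have := h1w0 hi
    have := h1w0 hj
    field_simp
    ring
  have e2 : (p : ℂ) * (betaC lam a p j * (z j)⁻¹ + (-betaC lam a p i) * (z i)⁻¹) = w j - w i := by
    simp only [hw, betaC]
    have := hl0 i
    have := hl0 j
    have := hz0 hi
    have := hz0 hj
    field_simp
    ring
  have e3 : z i / z j - lam j / lam i * ζ * (1 + (w j - w i)) =
      lam j / lam i * ((ε * (1 + w j) + ζ * (w i * (w i - w j))) / (1 + w i)) := by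
    rw [e1]
    have := h1w0 hi
    field_simp
    ring
  rw [e2, e3, map_mul, hμ, one_mul, map_div₀, h1w hi, div_one]
  have h2 : v (p : ℂ) ^ 2 < v (p : ℂ) := by
    rw [pow_two]
    exact mul_lt_of_lt_one_left hp0 hvp
  refine lt_of_le_of_lt ((hv _ _).trans (max_le ?_ ?_)) h2
  · rw [map_mul, h1w hj, mul_one]
    exact hεv
  · rw [map_mul, hvζ, one_mul, map_mul, pow_two]
    exact mul_le_mul (hwv hi) ((v_sub_le hv _ _).trans (max_le (hwv hi) (hwv hj)))
      (AbsoluteValue.nonneg v _) hp0.le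

end Norm

end Pool.Agent.Helper20.NB
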