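import Pool.Agent.Helper20.NB.Class
import Pool.Agent.Helper20.DL.LocalAB

/-! # Case B for a class of affine maps -/

open MvPolynomial Finset

namespace Pool.Agent.Helper20.NB
open Pool.Agent.Helper11.ZP Pool.Agent.Helper11.ZU Pool.Agent.Helper20.ZD Pool.Agent.Helper11.LC
  Pool.Agent.Helper69.DL Pool.Agent.Helper36.DL Pool.Agent.Helper20.DL Pool.Agent.Helper22.DL
  Pool.Agent.Helper81.DL

variable {n : ℕ} {v : AbsoluteValue ℂ ℝ} {p m M : ℕ} {lam a b c : Fin n → ℂ}

/-- a polynomial with integral coefficients -/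
lemma exists_lift (hv : IsNonarchimedean v) {τ : Type} (W : MvPolynomial τ ℂ) (hW : ∀ m, v (W.coeff m) ≤ 1) :
    ∃ W₀ : MvPolynomial τ (ball hv), map (ball hv).subtype W₀ = W := by
  classical
  refine ⟨∑ m ∈ W.support, monomial m ⟨W.coeff m, hW m⟩, ?_⟩
  rw [map_sum]
  conv_rhs => rw [← support_sum_monomial_coeff W]
  refine sum_congr rfl fun m _ => ?_
  rw [map_monomial]
  rfl

/-- the sign -/
def sgn (b : Bool) : ℤ := if b then -1 else 1

lemma sgn_eq (b : Bool) : sgn b = 1 ∨ sgn b = -1 := by cases b <;> simp [sgn]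

lemma sgn_ne (b : Bool) : sgn b ≠ 0 := by cases b <;> simp [sgn]

/-- a polynomial in the coordinates `z_{q r}` and their inverses -/
lemma exists_transport (hv : IsNonarchimedean v) {k : ℕ} [NeZero k] (q : Fin k → Fin n)
    (W : MvPolynomial (Fin n ⊕ Fin n) ℂ) (hW : ∀ m, v (W.coeff m) ≤ 1)
    (hvars : ∀ t : Fin n, (∀ r, q r ≠ t) → Sum.inl t ∉ W.vars ∧ Sum.inr t ∉ W.vars) :
    ∃ W₁ : MvPolynomial ((Fin k × Bool) ⊕ Fin 2) (ball hv), ∀ (z : Fin n → ℂ) (x y : ℂ),
      wev hv W₁ (fun s => z (q s.1) ^ sgn s.2) x y = eval (Sum.elim z fun i => (z i)⁻¹) W := by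
  classical
  obtain ⟨W₀, hW₀⟩ := exists_lift hv W hW
  let f : Fin n → Fin k := fun t => if h : ∃ r, q r = t then h.choose else 0
  have hf : ∀ t, (∃ r, q r = t) → q (f t) = t := fun t h => by
    simp only [f, dif_pos h]
    exact h.choose_spec
  let ρ : Fin n ⊕ Fin n → (Fin k × Bool) ⊕ Fin 2 :=
    Sum.elim (fun t => Sum.inl (f t, false)) fun t => Sum.inl (f t, true)
  refine ⟨rename ρ W₀, fun z x y => ?_⟩
  rw [wev, eval₂_rename]
  have h1 : eval (Sum.elim z fun i => (z i)⁻¹) W =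
      eval₂Hom (ball hv).subtype (Sum.elim z fun i => (z i)⁻¹) W₀ := by
    rw [← hW₀, eval_map]
    rfl
  rw [h1]
  refine eval₂Hom_congr' rfl ?_ rfl
  intro t ht _
  have hvar : t ∈ W.vars := by
    rw [← hW₀, vars_map_of_injective _ Subtype.val_injective]
    exact ht
  rcases t with t | t
  · have hex : ∃ r, q r = t := by
      by_contra hcon
      push Not at hcon
      exact (hvars t hcon).1 hvar
    change z (q (f t)) ^ sgn false = z t
    rw [hf t hex]
    exact zpow_one _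
  · have hex : ∃ r, q r = t := by
      by_contra hcon
      push Not at hcon
      exact (hvars t hcon).2 hvar
    change z (q (f t)) ^ sgn true = (z t)⁻¹
    rw [hf t hex]
    exact zpow_neg_one _

/-- quotients of near units are near -/
lemma div_near (hv : IsNonarchimedean v) {A B A' B' : ℂ} {r : ℝ} (hA : v A ≤ 1) (hB : v B = 1)
    (hB' : v B' = 1) (h1 : v (A - A') < r) (h2 : v (B - B') < r) :
    v (A / B - A' / B') < r := by
  have hB0 : B ≠ 0 := by
    rintro rfl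
    rw [map_zero] at hB
    exact zero_ne_one hB
  have hB0' : B' ≠ 0 := by
    rintro rfl
    rw [map_zero] at hB'
    exact zero_ne_one hB'
  have e : A / B - A' / B' = ((A - A') * B - A * (B - B')) / (B * B') + 0 := by
    field_simp
    ring
  rw [e, add_zero, map_div₀, map_mul, hB, hB', one_mul, div_one]
  refine (v_sub_le hv _ _).trans_lt (max_lt ?_ ?_)
  · rw [map_mul, hB, mul_one]
    exact h1
  · rw [map_mul]
    exact lt_of_le_of_lt (mul_le_of_le_one_left (v.nonneg _) hA) h2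

/-- the ratio of two units near one, to the first order -/
lemma first_ratio (hv : IsNonarchimedean v) (hvp0 : 0 < v (p : ℂ)) (hvp : v (p : ℂ) < 1) {δ δ' E E' : ℂ}
    (hδ : v δ ≤ 1) (hδ' : v δ' ≤ 1) (hE : v E ≤ 1) (hEE : v (E - E') < 1) :
    v ((1 + p * δ) / (1 + p * δ') * (1 + p * E) - (1 + p * ((δ - δ') + E'))) < v (p : ℂ) := by
  have hsm : ∀ {x : ℂ}, v x ≤ 1 → v ((p : ℂ) * x) ≤ v (p : ℂ) := fun {x} hx => by
    rw [map_mul]
    exact mul_le_of_le_one_right hvp0.le hx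
  have h1 : v (1 + p * δ') = 1 := by
    rw [v_add_eq hv (by rw [map_one]; exact (hsm hδ').trans_lt hvp), map_one]
  have h10 : (1 + p * δ' : ℂ) ≠ 0 := by
    rw [← AbsoluteValue.ne_zero_iff v, h1]
    exact one_ne_zero
  have hE' : v E' ≤ 1 := by
    rw [show E' = E - (E - E') by ring]
    exact (v_sub_le hv _ _).trans (max_le hE hEE.le)
  have e2 : (1 + p * δ) / (1 + p * δ') * (1 + p * E) - (1 + p * ((δ - δ') + E')) =
      p * ((E - E') / (1 + p * δ') + p * ((δ * E - δ' * (δ - δ') - δ' * E') / (1 + p * δ'))) := by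
    field_simp
    ring
  rw [e2, map_mul]
  refine mul_lt_of_lt_one_right hvp0 ((hv _ _).trans_lt (max_lt (by rw [map_div₀, h1, div_one]; exact hEE) ?_))
  rw [map_mul, map_div₀, h1, div_one]
  have hmul : ∀ {x y : ℂ}, v x ≤ 1 → v y ≤ 1 → v (x * y) ≤ 1 := fun {x y} hx hy => by
    rw [map_mul]
    exact mul_le_one₀ hx (v.nonneg _) hy
  refine lt_of_le_of_lt (mul_le_of_le_one_right hvp0.le ?_) hvp
  refine (v_sub_le hv _ _).trans (max_le ((v_sub_le hv _ _).trans (max_le (hmul hδ hE) (hmul hδ' ?_)))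
    (hmul hδ' hE'))
  exact (v_sub_le hv _ _).trans (max_le hδ hδ')

/-- the constant `744` or `0` -/
noncomputable def kap (m : ℕ) : ℂ := if m = 1 then 744 else 0

/-- the first order constant modulo the maximal ideal -/
noncomputable def bet (p : ℕ) (b c : Fin n → ℂ) (κ : ℂ) (t : Fin n) : ℂ := (c t / p - κ) / b t

lemma v_bet (hv : IsNonarchimedean v) (hvp0 : 0 < v (p : ℂ)) (hb : Base v p M b c) {κ : ℂ} (hκ : v κ ≤ 1)
    (t : Fin n) : v (bet p b c κ t) ≤ 1 := by
  rw [bet, map_div₀, hb.unit t, div_one]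
  refine (v_sub_le hv _ _).trans (max_le ?_ hκ)
  rw [map_div₀, div_le_one hvp0]
  exact hb.small t

lemma v_kap (hv : IsNonarchimedean v) (m : ℕ) : v (kap m) ≤ 1 := by
  unfold kap
  split_ifs
  · exact_mod_cast v_ofNat_le hv 744
  · rw [map_zero]
    exact zero_le_one

lemma beta_near (hv : IsNonarchimedean v) (hvp0 : 0 < v (p : ℂ)) (hvp : v (p : ℂ) < 1) (hb : Base v p M b c)
    (h : Cls v p b c m lam a) (t : Fin n) : v (betaC lam a p t - bet p b c (kap m) t) < 1 := by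
  have hp0 : (p : ℂ) ≠ 0 := (AbsoluteValue.pos_iff v).1 hvp0
  have hn := h.norm hv hvp hb
  have hl0 := hn.lam_ne hvp0 t
  have h744 : v (744 : ℂ) ≤ 1 := by exact_mod_cast v_ofNat_le hv 744
  obtain ⟨k, rfl⟩ : ∃ k, m = k + 1 := ⟨m - 1, by have := h.one_le; omega⟩
  have e : betaC lam a p t = ((p : ℂ) ^ (k + 1) * a t / p - 744 * (p : ℂ) ^ k) / ((p : ℂ) ^ (k + 1) * lam t) := by
    unfold betaC
    rw [pow_succ]
    have := pow_ne_zero k hp0
    field_simp
  rw [e, bet]
  refine div_near hv ?_ (hn.lam_one t) (hb.unit t) ?_ ((h.lam_near t).trans hvp)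
  · refine (v_sub_le hv _ _).trans (max_le ?_ ?_)
    · rw [map_div₀, div_le_one hvp0]
      exact hn.a_le t
    · rw [map_mul, map_pow]
      exact mul_le_one₀ h744 (pow_nonneg hvp0.le _) (pow_le_one₀ hvp0.le hvp.le)
  · have e2 : (p : ℂ) ^ (k + 1) * a t / p - 744 * (p : ℂ) ^ k - (c t / p - kap (k + 1)) =
        ((p : ℂ) ^ (k + 1) * a t - c t) / p - (744 * (p : ℂ) ^ k - kap (k + 1)) := by
      field_simp
      ring
    rw [e2]
    refine (v_sub_le hv _ _).trans_lt (max_lt ?_ ?_)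
    · rw [map_div₀, div_lt_one hvp0]
      exact h.a_near t
    · unfold kap
      by_cases hk : k = 0
      · subst hk
        simp
      · rw [if_neg (by omega), sub_zero, map_mul, map_pow]
        refine lt_of_le_of_lt (mul_le_of_le_one_left (pow_nonneg hvp0.le _) h744) ?_
        exact pow_lt_one₀ hvp0.le hvp hk

/-- the ratio of two isogenous coordinates is near a root of unity, to the first order -/
lemma ratio_final (hv : IsNonarchimedean v) (hvp0 : 0 < v (p : ℂ)) (hvp : v (p : ℂ) < 1) (hb : Base v p M b c)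
    (h : Cls v p b c m lam a) {τ δ : Fin n → ℂ} (hτ : ∀ i, v (τ i) = 1) (hδ : ∀ i, v (δ i) ≤ 1)
    (hτδ : ∀ i, b i = τ i * (1 + p * δ i)) {z : Fin n → ℂ} {i j : Fin n}
    (hi : v (z i) = 1) (hj : v (z j) = 1) {N : ℕ} (hN : CyclicIsog N (lam i * z i + a i) (lam j * z j + a j)) :
    ∃ (g : ℕ) (ζ : ℂ), 0 < g ∧ N = g ^ 2 ∧ IsPrimitiveRoot ζ g ∧
      v (z i / z j - τ j / τ i * ζ * (1 + p * ((δ j - δ i) + (bet p b c (kap m) j * (z j)⁻¹ +
        (-bet p b c (kap m) i) * (z i)⁻¹)))) < v (p : ℂ) := by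
  have hn := h.norm hv hvp hb
  obtain ⟨g, ζ, hg, hNg, hζ, hd⟩ := hn.ratio_near hvp0 hv hvp hi hj hN
  refine ⟨g, ζ, hg, hNg, hζ, ?_⟩
  have vζ : v ζ = 1 := val_root hg hζ.pow_eq_one
  set E := betaC lam a p j * (z j)⁻¹ + (-betaC lam a p i) * (z i)⁻¹ with hE
  set E' := bet p b c (kap m) j * (z j)⁻¹ + (-bet p b c (kap m) i) * (z i)⁻¹ with hE'
  have hzi : v (z i)⁻¹ = 1 := by rw [map_inv₀, hi, inv_one]
  have hzj : v (z j)⁻¹ = 1 := by rw [map_inv₀, hj, inv_one]
  have hEv : v E ≤ 1 := by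
    rw [hE]
    refine (hv _ _).trans (max_le ?_ ?_)
    · rw [map_mul, hzj, mul_one]
      exact hn.v_beta hvp0 hv hvp j
    · rw [map_mul, hzi, mul_one, map_neg_eq_map]
      exact hn.v_beta hvp0 hv hvp i
  have hEE : v (E - E') < 1 := by
    have e : E - E' = (betaC lam a p j - bet p b c (kap m) j) * (z j)⁻¹ -
        (betaC lam a p i - bet p b c (kap m) i) * (z i)⁻¹ := by
      rw [hE, hE']
      ring
    rw [e]
    refine (v_sub_le hv _ _).trans_lt (max_lt ?_ ?_)
    · rw [map_mul, hzj, mul_one]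
      exact beta_near hv hvp0 hvp hb h j
    · rw [map_mul, hzi, mul_one]
      exact beta_near hv hvp0 hvp hb h i
  have hpE : v (1 + p * E) ≤ 1 := by
    refine (hv _ _).trans (max_le (by rw [map_one]) ?_)
    rw [map_mul]
    exact mul_le_one₀ hvp.le (v.nonneg _) hEv
  have hp0 : (p : ℂ) ≠ 0 := (AbsoluteValue.pos_iff v).1 hvp0
  have hμ : v (lam j / lam i - b j / b i) < v (p : ℂ) := by
    have e : lam j / lam i = ((p : ℂ) ^ m * lam j) / ((p : ℂ) ^ m * lam i) :=
      (mul_div_mul_left _ _ (pow_ne_zero m hp0)).symm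
    rw [e]
    exact div_near hv (hn.lam_one j).le (hn.lam_one i) (hb.unit i) (h.lam_near j) (h.lam_near i)
  have hf := first_ratio hv hvp0 hvp (hδ j) (hδ i) hEv hEE
  have hτ0 : τ i ≠ 0 := by
    rw [← AbsoluteValue.ne_zero_iff v, hτ i]
    exact one_ne_zero
  have hδ0 : (1 + p * δ i : ℂ) ≠ 0 := by
    intro h0
    have h1 := hb.unit i
    rw [hτδ i, h0, mul_zero, map_zero] at h1
    exact zero_ne_one h1
  have e : z i / z j - τ j / τ i * ζ * (1 + p * ((δ j - δ i) + E')) =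
      (z i / z j - lam j / lam i * ζ * (1 + p * E)) + ((lam j / lam i - b j / b i) * (ζ * (1 + p * E)) +
        τ j / τ i * ζ * ((1 + p * δ j) / (1 + p * δ i) * (1 + p * E) - (1 + p * ((δ j - δ i) + E')))) := by
    rw [hτδ i, hτδ j]
    field_simp
    ring
  rw [e]
  refine (hv _ _).trans_lt (max_lt hd ((hv _ _).trans_lt (max_lt ?_ ?_)))
  · rw [map_mul, map_mul, vζ, one_mul]
    exact lt_of_le_of_lt (mul_le_of_le_one_right (v.nonneg _) hpE) hμ
  · rw [map_mul, map_mul, map_div₀, hτ, hτ, vζ, div_one, one_mul, one_mul]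
    exact hf

/-- the relation at a point at which the relevant coordinates are units -/
lemma holdsMod_apply {H : MvPolynomial (Fin 2) ℤ} {V : Set (Fin n → ℂ)} {e e' : Fin n → ℤ}
    (h : HoldsMod v p H V e e') {z : Fin n → ℂ} (hz : z ∈ V)
    (hu : ∀ i, v (z i) = 1 ∨ (e i = 0 ∧ e' i = 0)) :
    v (ev H (∏ i, z i ^ e i) (∏ i, z i ^ e' i)) ≤ v (p : ℂ) := by
  refine h z hz (fun i hi => ?_) (fun i hi => ?_) fun i hi => ?_
  · rcases hu i with h1 | h1
    · rw [hi, map_zero] at h1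
      exact absurd h1 zero_ne_one
    · exact ⟨h1.1.ge, h1.2.ge⟩
  · rcases hu i with h1 | h1
    · exact absurd h1 hi.ne
    · exact ⟨h1.1.ge, h1.2.ge⟩
  · rcases hu i with h1 | h1
    · exact absurd h1 hi.ne'
    · exact ⟨h1.1.le, h1.2.le⟩

/-- the first order term -/
noncomputable def spoly (hv : IsNonarchimedean v) (d β β' : ball hv) (r r' : Fin 4) :
    MvPolynomial ((Fin 4 × Bool) ⊕ Fin 2) (ball hv) :=
  C d + (C β * X (Sum.inl (r', true)) + C β' * X (Sum.inl (r, true)))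

lemma wev_spoly (hv : IsNonarchimedean v) (d β β' : ball hv) (r r' : Fin 4) (u : Fin 4 × Bool → ℂ) (x y : ℂ) :
    wev hv (spoly hv d β β' r r') u x y = d + (β * u (r', true) + β' * u (r, true)) := by
  rw [spoly, wev, eval₂_add, eval₂_add, eval₂_mul, eval₂_mul, eval₂_C, eval₂_C, eval₂_C, eval₂_X, eval₂_X]
  rfl

end Pool.Agent.Helper20.NB
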