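import Pool.Agent.Helper20.NB.DerivK
import Pool.Agent.Helper81.DL.Frob2
import Pool.Agent.Helper20.DL.Near

/-! # Torsion points near a curve to the first order, with constants in the valuation ring -/

open Finset MvPolynomial

namespace Pool.Agent.Helper20.NB
open Pool.Agent.Helper20.DL Pool.Agent.Helper20.ZD Pool.Agent.Helper69.DL Pool.Agent.Helper81.DL

variable {v : AbsoluteValue ℂ ℝ}

/-- the field of constants -/
def constField (hv : IsNonarchimedean v) {K : Type} [Field K] (c : ball hv →+* K)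
    (hc : ∀ x, c x = 0 ↔ v (x : ℂ) < 1) : Subfield K where
  __ := c.range
  inv_mem' := by
    rintro _ ⟨x, rfl⟩
    by_cases h : c x = 0
    · rw [h, inv_zero]
      exact ⟨0, map_zero c⟩
    · have h1 : v (x : ℂ) = 1 := le_antisymm x.2 (not_lt.1 fun h' => h ((hc x).2 h'))
      have hx0 : (x : ℂ) ≠ 0 := by
        intro h0
        rw [h0, map_zero] at h1
        exact zero_ne_one h1
      refine ⟨⟨(x : ℂ)⁻¹, by rw [mem_ball, map_inv₀, h1, inv_one]⟩, ?_⟩
      refine eq_inv_of_mul_eq_one_left ?_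
      rw [← map_mul, ← map_one c]
      congr 1
      exact Subtype.ext (inv_mul_cancel₀ hx0)

/-- roots of unity of order prime to `p` in the same residue class are equal -/
lemma eq_of_near (hv : IsNonarchimedean v) {p : ℕ} (hvp : v (p : ℂ) < 1) {N N' : ℕ}
    (hN : N.Coprime p) (hN' : N'.Coprime p) {x y : ℂ} (hx : x ^ N = 1) (hy : y ^ N' = 1) (h1 : v y = 1)
    (h : v (x - y) < 1) : x = y := by
  have hy0 : y ≠ 0 := by
    rintro rfl
    rw [map_zero] at h1
    exact zero_ne_one h1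
  have h2 : x / y = 1 := by
    refine eq_one_of_near hv hvp (N := N * N') (Nat.Coprime.mul_left hN hN') ?_ ?_
    · rw [div_pow, pow_mul, hx, one_pow, mul_comm, pow_mul, hy, one_pow, div_one]
    · rw [show x / y - 1 = (x - y) / y by field_simp, map_div₀, h1, div_one]
      exact h
  rwa [div_eq_one_iff_eq hy0] at h2

/-- an integral element of the limit field near a constant -/
lemma near_const (hv : IsNonarchimedean v) {ι : Type} (U : Ultrafilter ι) {K : Type} [Field K]
    (π : (ι → ball hv) →+* K) (hπ : ∀ f, π f = 0 ↔ ∀ᶠ s in (U : Filter ι), v (f s : ℂ) < 1)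
    (hc : ∀ x : ball hv, (π.comp (Pi.constRingHom ι (ball hv))) x = 0 ↔ v (x : ℂ) < 1) {f : ι → ball hv}
    (h : IsIntegral (constField hv (π.comp (Pi.constRingHom ι (ball hv))) hc) (π f)) :
    ∃ r : ℂ, ∀ᶠ s in (U : Filter ι), v ((f s : ℂ) - r) < 1 := by
  classical
  set c := π.comp (Pi.constRingHom ι (ball hv)) with hcdef
  obtain ⟨P, hP, hP0⟩ := h
  -- lift the polynomial
  let c' : ball hv →+* constField hv c hc := c.codRestrict (constField hv c hc) fun x => ⟨x, rfl⟩
  have hlift : P ∈ Polynomial.lifts c' := by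
    rw [Polynomial.lifts_iff_coeff_lifts]
    intro n
    obtain ⟨x, hx⟩ := (P.coeff n).2
    exact ⟨x, Subtype.ext hx⟩
  obtain ⟨Q, hQ, -, hQm⟩ := Polynomial.lifts_and_natDegree_eq_and_monic hlift hP
  set Q' : Polynomial ℂ := Q.map (ball hv).subtype with hQ'
  have hQ'm : Q'.Monic := hQm.map _
  -- the value of `Q` at `f`
  have e1 : π (Q.eval₂ (Pi.constRingHom ι (ball hv)) f) = 0 := by
    rw [Polynomial.hom_eval₂, ← hcdef]
    rw [← hQ, Polynomial.eval₂_map] at hP0
    exact hP0
  have e2 : ∀ s, ((Q.eval₂ (Pi.constRingHom ι (ball hv)) f) s : ℂ) = Q'.eval (f s : ℂ) := by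
    intro s
    rw [← evalAt_apply, Polynomial.hom_eval₂, hQ', Polynomial.eval_map]
    rfl
  have e3 : ∀ᶠ s in (U : Filter ι), ∃ r ∈ (Q'.roots.toFinset : Set ℂ), v ((f s : ℂ) - r) < 1 := by
    filter_upwards [(hπ _).1 e1] with s hs
    rw [e2] at hs
    obtain ⟨z, hz, -, hz1⟩ := root_near (v := v) (P := Q') (D := Q'.natDegree) le_rfl (x := (f s : ℂ)) (L := 1)
      (δ := v (Q'.eval (f s : ℂ))) (by rw [hQ'm.leadingCoeff, map_one]) one_pos le_rfl hs
    exact ⟨z, Finset.mem_coe.2 (Multiset.mem_toFinset.2 hz), hz1⟩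
  have e4 := (Ultrafilter.eventually_exists_mem_iff (Finset.finite_toSet _)).1 e3
  obtain ⟨r, -, hr⟩ := e4
  exact ⟨r, hr⟩

/-- the polynomial `W` with coefficients in the valuation ring, at a point -/
noncomputable def wev (hv : IsNonarchimedean v) {ι : Type} (W : MvPolynomial (ι ⊕ Fin 2) (ball hv)) (u : ι → ℂ)
    (x y : ℂ) : ℂ := eval₂ (ball hv).subtype (Sum.elim u ![x, y]) W

/-- **Finiteness of the pairs of roots of unity near the curve to the first order.** -/
theorem finite_core (hv : IsNonarchimedean v) {p : ℕ} (hp : p.Prime) (hvp : v (p : ℂ) < 1)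
    {H : MvPolynomial (Fin 2) ℤ} (hH : GoodRel v p H) {ι : Type} {G : ι → MvPolynomial (Fin 2) ℤ}
    (hG : ∀ i, GoodRel v p (G i)) (jj : ι → Fin 2) (W : MvPolynomial (ι ⊕ Fin 2) (ball hv)) :
    {z : ℂ × ℂ | (∃ N : ℕ, N.Coprime p ∧ z.1 ^ N = 1 ∧ z.2 ^ N = 1) ∧ ∃ u : ι → ℂ, (∀ i, v (u i) ≤ 1) ∧
      (∀ i, v (ev (G i) (u i) (![z.1, z.2] (jj i))) < 1) ∧
      v (ev H z.1 z.2 - p * wev hv W u z.1 z.2) < v (p : ℂ)}.Finite := by
  classical
  have := Fact.mk hp
  set S : Set (ℂ × ℂ) := {z : ℂ × ℂ | (∃ N : ℕ, N.Coprime p ∧ z.1 ^ N = 1 ∧ z.2 ^ N = 1) ∧ ∃ u : ι → ℂ,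
      (∀ i, v (u i) ≤ 1) ∧ (∀ i, v (ev (G i) (u i) (![z.1, z.2] (jj i))) < 1) ∧
      v (ev H z.1 z.2 - p * wev hv W u z.1 z.2) < v (p : ℂ)} with hSdef
  by_contra hinf
  have hinf' : Infinite S := Set.infinite_coe_iff.2 hinf
  have hpp : 0 < v (p : ℂ) := by rw [AbsoluteValue.pos_iff]; exact_mod_cast hp.ne_zero
  have hlarge : ∀ H' : MvPolynomial (Fin 2) ℤ, GoodRel v p H' → H'.totalDegree < p := by
    intro H' h
    have := h.large
    nlinarith
  have hp2 : p ≠ 2 := by
    have h1 := hH.large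
    have h2 : 1 ≤ (H.totalDegree + 1) ^ 2 := Nat.one_le_pow _ _ (Nat.succ_pos _)
    rintro rfl
    omega
  obtain ⟨B, hB⟩ := exists_frob hp H 1
  rw [pow_one] at hB
  have hB2 : H ^ p - expand p H = C (p : ℤ) * B := by rw [hB]; ring
  choose hN u hu hGu hWu using fun z (hz : z ∈ S) => hz
  choose N hNp hN1 hN2 using hN
  have hNpos : ∀ z (hz : z ∈ S), 0 < N z hz := by
    intro z hz
    rcases Nat.eq_zero_or_pos (N z hz) with h | h
    · have h1 := hNp z hz
      rw [h] at h1
      exact absurd ((Nat.coprime_zero_left p).1 h1) hp.one_lt.ne'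
    · exact h
  have hz1 : ∀ z ∈ S, v z.1 = 1 := fun z hz => val_root (hNpos z hz) (hN1 z hz)
  have hz2 : ∀ z ∈ S, v z.2 = 1 := fun z hz => val_root (hNpos z hz) (hN2 z hz)
  have hWle : ∀ z (hz : z ∈ S), v (wev hv W (u z hz) z.1 z.2) ≤ 1 := by
    intro z hz
    have h1 : wev hv W (u z hz) z.1 z.2 ∈ ball hv := by
      refine eval₂_mem (fun m _ => (W.coeff m).2) ?_
      rintro (i | i)
      · exact hu z hz i
      · fin_cases i
        · exact (hz1 z hz).le
        · exact (hz2 z hz).le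
    exact h1
  have hHz : ∀ z (hz : z ∈ S), v (ev H z.1 z.2) ≤ v (p : ℂ) := by
    intro z hz
    have e : ev H z.1 z.2 = (ev H z.1 z.2 - p * wev hv W (u z hz) z.1 z.2) +
        p * wev hv W (u z hz) z.1 z.2 := by ring
    rw [e]
    refine (hv _ _).trans (max_le (hWu z hz).le ?_)
    rw [map_mul]
    exact mul_le_of_le_one_right hpp.le (hWle z hz)
  have hp0 : (p : ℂ) ≠ 0 := by exact_mod_cast hp.ne_zero
  have hW : ∀ z (hz : z ∈ S), v (aeval ![z.1, z.2] B + wev hv W (u z hz) z.1 z.2 ^ p) < 1 := by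
    intro z hz
    have hη : ∀ i, ![z.1, z.2] i ^ N z hz = 1 := by
      intro i; fin_cases i
      · exact hN1 z hz
      · exact hN2 z hz
    have hle : v (aeval ![z.1, z.2] H) ≤ v (p : ℂ) := by rw [← ev_eq_aeval]; exact hHz z hz
    have hf := frob_first_order hv hp hp2 hvp (hNp z hz).symm hB2 hη hle
    rw [← ev_eq_aeval H] at hf
    set h := ev H z.1 z.2 with hh
    have hhp : v (h / p) ≤ 1 := by rw [map_div₀]; exact (div_le_one hpp).2 (hHz z hz)
    have hW' : v (h / p - wev hv W (u z hz) z.1 z.2) < 1 := by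
      rw [show h / p - wev hv W (u z hz) z.1 z.2 = (h - p * wev hv W (u z hz) z.1 z.2) / p by field_simp,
        map_div₀, div_lt_one hpp]
      exact hWu z hz
    have h5 := v_pow_sub_lt hv hhp (hWle z hz) hW' p
    rw [show aeval ![z.1, z.2] B + wev hv W (u z hz) z.1 z.2 ^ p = (aeval ![z.1, z.2] B + (h / p) ^ p) +
      (-((h / p) ^ p - wev hv W (u z hz) z.1 z.2 ^ p)) by ring]
    refine (hv _ _).trans_lt (max_lt hf ?_)
    rw [map_neg_eq_map]
    exact h5
  have hS : ∀ z ∈ S, v z.1 = 1 ∧ v z.2 = 1 := fun z hz => ⟨hz1 z hz, hz2 z hz⟩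
  set U : Ultrafilter S := Filter.hyperfilter S with hU
  set Q := limIdeal hv hS U with hQdef
  have hQ : Q.IsPrime := isPrime_limIdeal hv hS U
  have hpQ : C (p : ℤ) ∈ Q := by
    refine Filter.Eventually.of_forall fun s => ?_
    rw [aeval_C]
    have : algebraMap ℤ ℂ p = (p : ℂ) := by simp
    rw [this]
    exact hvp
  have hHQ : H ∈ Q := Filter.Eventually.of_forall fun s => by
    have h1 := hHz s.1 s.2
    rw [ev_eq_aeval] at h1
    exact lt_of_le_of_lt h1 hvp
  have hX0 : (X 0 : MvPolynomial (Fin 2) ℤ) ∉ Q := by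
    intro h
    obtain ⟨s, hs⟩ := (mem_limIdeal.1 h).exists
    rw [aeval_X] at hs
    exact absurd (hS s.1 s.2).1 hs.ne
  have hY0 : (X 1 : MvPolynomial (Fin 2) ℤ) ∉ Q := by
    intro h
    obtain ⟨s, hs⟩ := (mem_limIdeal.1 h).exists
    rw [aeval_X] at hs
    exact absurd (hS s.1 s.2).2 hs.ne
  -- the limit field
  obtain ⟨K, _, π, hπ⟩ := exists_limField hv U
  set xy : Fin 2 → S → ball hv := ![fun s => ⟨s.1.1, (hz1 s.1 s.2).le⟩, fun s => ⟨s.1.2, (hz2 s.1 s.2).le⟩]
    with hxy
  set t : ι → S → ball hv := fun i s => ⟨u s.1 s.2 i, hu s.1 s.2 i⟩ with ht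
  have hxys : ∀ (i : Fin 2) (s : S), evalAt hv s (xy i) = ![s.1.1, s.1.2] i := by
    intro i s
    fin_cases i <;> rfl
  have hevs : ∀ (f : MvPolynomial (Fin 2) ℤ) (s : S), evalAt hv s (aeval xy f) = aeval ![s.1.1, s.1.2] f := by
    intro f s
    rw [ringHom_aeval]
    congr 2
    funext i
    exact hxys i s
  set ψ : MvPolynomial (Fin 2) ℤ →+* K :=
    π.comp ((aeval xy : MvPolynomial (Fin 2) ℤ →ₐ[ℤ] (S → ball hv)) : MvPolynomial (Fin 2) ℤ →+* (S → ball hv))
    with hψdef
  have hψa : ∀ f, ψ f = π (aeval xy f) := fun f => rfl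
  have hψ : ∀ f, ψ f = 0 ↔ f ∈ Q := by
    intro f
    rw [hψa, hπ, mem_limIdeal]
    refine Filter.eventually_congr (Filter.Eventually.of_forall fun s => ?_)
    rw [← hevs, evalAt_apply]
  -- the constants
  set cc := π.comp (Pi.constRingHom S (ball hv)) with hccdef
  have hcc : ∀ x : ball hv, cc x = 0 ↔ v (x : ℂ) < 1 := by
    intro x
    rw [hccdef, RingHom.comp_apply, hπ]
    constructor
    · intro h
      obtain ⟨s, hs⟩ := h.exists
      exact hs
    · intro h
      exact Filter.Eventually.of_forall fun s => h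
  set k₀ := constField hv cc hcc with hk₀
  have hnot : ¬ (IsIntegral k₀ (π (xy 0)) ∧ IsIntegral k₀ (π (xy 1))) := by
    rintro ⟨h0, h1⟩
    obtain ⟨r, hr⟩ := near_const hv U π hπ hcc h0
    obtain ⟨r', hr'⟩ := near_const hv U π hπ hcc h1
    have hsub : {s : S | v ((xy 0 s : ℂ) - r) < 1 ∧ v ((xy 1 s : ℂ) - r') < 1}.Subsingleton := by
      intro s hs s' hs'
      have e0 : v (s.1.1 - s'.1.1) < 1 := by
        have : s.1.1 - s'.1.1 = ((xy 0 s : ℂ) - r) + (-((xy 0 s' : ℂ) - r)) := by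
          change s.1.1 - s'.1.1 = (s.1.1 - r) + (-(s'.1.1 - r))
          ring
        rw [this]
        refine (hv _ _).trans_lt (max_lt hs.1 ?_)
        rw [map_neg_eq_map]
        exact hs'.1
      have e1 : v (s.1.2 - s'.1.2) < 1 := by
        have : s.1.2 - s'.1.2 = ((xy 1 s : ℂ) - r') + (-((xy 1 s' : ℂ) - r')) := by
          change s.1.2 - s'.1.2 = (s.1.2 - r') + (-(s'.1.2 - r'))
          ring
        rw [this]
        refine (hv _ _).trans_lt (max_lt hs.2 ?_)
        rw [map_neg_eq_map]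
        exact hs'.2
      have f0 := eq_of_near hv hvp (hNp s.1 s.2) (hNp s'.1 s'.2) (hN1 s.1 s.2) (hN1 s'.1 s'.2)
        (hz1 s'.1 s'.2) e0
      have f1 := eq_of_near hv hvp (hNp s.1 s.2) (hNp s'.1 s'.2) (hN2 s.1 s.2) (hN2 s'.1 s'.2)
        (hz2 s'.1 s'.2) e1
      exact Subtype.ext (Prod.ext f0 f1)
    exact Filter.notMem_hyperfilter_of_finite hsub.finite (hr.and hr')
  -- the field `E = k₀(x, y)`
  have hex := exists_derivation_adjoin hnot
  set E := IntermediateField.adjoin k₀ {π (xy 0), π (xy 1)} with hE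
  obtain ⟨δ₀, hδ₀⟩ := hex
  have hcharK : CharP K p := by
    rw [CharP.charP_iff_prime_eq_zero hp]
    have h1 : π ((p : ℕ) : S → ball hv) = 0 := by
      rw [hπ]
      refine Filter.Eventually.of_forall fun s => ?_
      rw [← evalAt_apply, map_natCast]
      exact hvp
    rwa [map_natCast] at h1
  have hcharE : CharP E p := (algebraMap E K).charP (algebraMap E K).injective p
  let _ : Algebra (ZMod p) E := ZMod.algebra E p
  have hxyE : ∀ i, π (xy i) ∈ E := by
    intro i
    refine IntermediateField.subset_adjoin _ _ ?_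
    fin_cases i
    · exact Or.inl rfl
    · exact Or.inr rfl
  set xE : Fin 2 → E := fun i => ⟨π (xy i), hxyE i⟩ with hxE
  set δ := primeDeriv p δ₀ with hδdef
  have hδ : ¬ (δ (xE 0) = 0 ∧ δ (xE 1) = 0) := hδ₀
  -- the map to `E`
  have haE : ∀ f : MvPolynomial (Fin 2) ℤ, algebraMap E K (aeval ![xE 0, xE 1] f) = ψ f := by
    intro f
    rw [ringHom_aeval, hψa, ringHom_aeval]
    congr 2
    funext i
    fin_cases i <;> rfl
  have hQE : ∀ f : MvPolynomial (Fin 2) ℤ, aeval ![xE 0, xE 1] f = 0 ↔ f ∈ Q := by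
    intro f
    rw [← hψ, ← haE, FaithfulSMul.algebraMap_eq_zero_iff]
  -- the algebraic elements
  have hs : ∀ z ∈ Set.range (fun i => π (t i)), ∃ P : Polynomial E, P ≠ 0 ∧ P.natDegree < p ∧
      Polynomial.aeval z P = 0 := by
    rintro z ⟨i, rfl⟩
    refine ⟨fib (G i) (xE (jj i)), ?_, (natDegree_fib _ _).trans_lt (hlarge _ (hG i)), ?_⟩
    · intro h0
      have h1 : ∀ᶠ s : S in (U : Filter S), ∀ e ∈ (G i).support.image (wt 1 0),
          v (aeval ![1, ![s.1.1, s.1.2] (jj i)] (part 1 0 e (G i))) < 1 := by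
        rw [Filter.eventually_all_finset]
        intro e he
        obtain ⟨m, hm, rfl⟩ := mem_image.1 he
        have h2 := coeff_fib (G i) (xE (jj i)) (m 0)
        rw [h0, Polynomial.coeff_zero] at h2
        have h3 : wt 1 0 m = ((m 0 : ℕ) : ℤ) := by rw [wt, one_mul, zero_mul, add_zero]
        rw [← h3] at h2
        have h4 := congrArg (algebraMap E K) h2
        rw [map_zero, ringHom_aeval] at h4
        have h5 : (fun k : Fin 2 => algebraMap E K ((![1, xE (jj i)] : Fin 2 → E) k)) =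
            fun k => π ((![1, xy (jj i)] : Fin 2 → (S → ball hv)) k) := by
          funext k
          fin_cases k
          · change algebraMap E K 1 = π 1
            rw [map_one, map_one]
          · rfl
        rw [h5, ← ringHom_aeval] at h4
        have h6 := (hπ _).1 h4.symm
        filter_upwards [h6] with s hs
        rw [← evalAt_apply, ringHom_aeval] at hs
        have h7 : (fun k : Fin 2 => evalAt hv s ((![1, xy (jj i)] : Fin 2 → (S → ball hv)) k)) =
            ![1, ![s.1.1, s.1.2] (jj i)] := by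
          funext k
          fin_cases k
          · change evalAt hv s 1 = 1
            rw [map_one]
          · exact hxys (jj i) s
        rw [h7] at hs
        exact hs
      obtain ⟨s, hs⟩ := h1.exists
      refine false_of_parts (hG i).noCoset (map_one v) ?_ (by simp) hs
      generalize jj i = j
      fin_cases j
      · exact hz1 s.1 s.2
      · exact hz2 s.1 s.2
    · have h1 : Polynomial.aeval (π (t i)) (fib (G i) (xE (jj i))) =
          aeval (fun k => π ((![t i, xy (jj i)] : Fin 2 → (S → ball hv)) k)) (G i) := by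
        rw [fib]
        have h2 := ringHom_aeval (Polynomial.aeval (π (t i)) : Polynomial E →ₐ[E] K).toRingHom
          ![Polynomial.X, Polynomial.C (xE (jj i))] (G i)
        refine h2.trans ?_
        congr 2
        funext k
        fin_cases k
        · change Polynomial.aeval (π (t i)) Polynomial.X = π (t i)
          rw [Polynomial.aeval_X]
        · change Polynomial.aeval (π (t i)) (Polynomial.C (xE (jj i))) = π (xy (jj i))
          rw [Polynomial.aeval_C]
          rfl
      rw [h1, ← ringHom_aeval, hπ]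
      refine Filter.Eventually.of_forall fun s => ?_
      rw [← evalAt_apply, ringHom_aeval]
      have h7 : (fun k : Fin 2 => evalAt hv s ((![t i, xy (jj i)] : Fin 2 → (S → ball hv)) k)) =
          ![u s.1 s.2 i, ![s.1.1, s.1.2] (jj i)] := by
        funext k
        fin_cases k
        · rfl
        · exact hxys (jj i) s
      rw [h7, ← ev_eq_aeval]
      exact hGu s.1 s.2 i
  -- the element `W`
  set Wf : S → ball hv := eval₂ (Pi.constRingHom S (ball hv)) (Sum.elim t xy) W with hWfdef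
  have hWs : ∀ s : S, evalAt hv s Wf = wev hv W (u s.1 s.2) s.1.1 s.1.2 := by
    intro s
    rw [hWfdef, hom_eval₂, wev]
    congr 1
    funext i
    rcases i with i | i
    · rfl
    · exact hxys i s
  have hWrel : ψ B + π Wf ^ p = 0 := by
    rw [hψa, ← map_pow, ← map_add, hπ]
    refine Filter.Eventually.of_forall fun s => ?_
    rw [← evalAt_apply, map_add, map_pow, hevs, hWs]
    exact hW s.1 s.2
  have hWmem : π Wf ∈ Algebra.adjoin E (Set.range (fun i => π (t i))) := by
    rw [hWfdef, hom_eval₂]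
    refine eval₂_mem (fun m _ => ?_) ?_
    · have h1 : cc (W.coeff m) ∈ k₀ := ⟨W.coeff m, rfl⟩
      exact Subalgebra.algebraMap_mem (Algebra.adjoin E (Set.range (fun i => π (t i))))
        (algebraMap k₀ E ⟨cc (W.coeff m), h1⟩)
    · rintro (i | i)
      · exact Algebra.subset_adjoin ⟨i, rfl⟩
      · exact Subalgebra.algebraMap_mem (Algebra.adjoin E (Set.range (fun i => π (t i)))) (xE i)
  have hBδ : δ (aeval ![xE 0, xE 1] B) = 0 := by
    have h1 : algebraMap E K (-aeval ![xE 0, xE 1] B) = π Wf ^ p := by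
      rw [map_neg, haE]
      linear_combination -hWrel
    have h2 := derivation_eq_zero hp hs hWmem h1 δ
    rw [map_neg, neg_eq_zero] at h2
    exact h2
  -- the Euler operator
  obtain ⟨A₁, B₁, P₁, h₁, k₁, hk₁⟩ := hH.sqf₀
  obtain ⟨A₂, B₂, P₂, h₂, k₂, hk₂⟩ := hH.sqf₁
  have hmap : ∀ (P : Polynomial ℤ) (k : ℕ), ¬ (p : ℤ) ∣ P.coeff k → P.map (Int.castRingHom (ZMod p)) ≠ 0 := by
    intro P k hk h
    have h1 := congrArg (fun P => Polynomial.coeff P k) h
    simp only [Polynomial.coeff_map, Polynomial.coeff_zero, eq_intCast] at h1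
    exact hk ((ZMod.intCast_zmod_eq_zero_iff_dvd _ p).1 h1)
  have hxE0 : ∀ i, X i ∉ Q → xE i ≠ 0 := by
    intro i hi h0
    apply hi
    rw [← hQE, aeval_X]
    fin_cases i <;> exact h0
  obtain ⟨a, w, haw, ha, hw, δ', hδx, hδy⟩ := exists_euler' (hxE0 0 hX0) (hxE0 1 hY0) hB ((hQE H).2 hHQ)
    (hmap _ _ hk₁) (hmap _ _ hk₂) h₁ h₂ δ hBδ hδ
  have hstab' : ∀ f ∈ Q, eul a w f ∈ Q := by
    intro f hf
    rw [← hQE] at hf ⊢
    have h1 := deriv_aeval δ' (xE 0) (xE 1) f
    rw [hf, map_zero, hδx, hδy] at h1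
    rw [eul, map_add, map_mul, map_mul, map_mul, map_mul, aeval_C, aeval_C, aeval_X,
      aeval_X, eq_intCast, eq_intCast]
    simp only [Matrix.cons_val_zero, Matrix.cons_val_one]
    linear_combination -h1
  -- the weights
  set D := H.totalDegree with hD
  have hwt : ∀ m ∈ H.support, ∀ m' ∈ H.support, |wt a w m - wt a w m'| < p := by
    intro m hm m' hm'
    have hb : ∀ i : Fin 2, ∀ m ∈ H.support, ((m i : ℕ) : ℤ) ≤ D := by
      intro i m hm
      exact_mod_cast (monomial_le_degreeOf i hm).trans (degreeOf_le_totalDegree H i)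
    have hs : (Nat.sqrt p : ℤ) * Nat.sqrt p ≤ p := by exact_mod_cast Nat.sqrt_le p
    have hs0 : (0 : ℤ) ≤ Nat.sqrt p := by positivity
    have h1 : ∀ (t : ℤ) (i : Fin 2), |t| ≤ Nat.sqrt p →
        |t * m i - t * m' i| ≤ Nat.sqrt p * D := by
      intro t i ht
      rw [← mul_sub, abs_mul]
      have h2 : |((m i : ℕ) : ℤ) - (m' i : ℕ)| ≤ D := by
        rw [abs_le]
        have h3 := hb i m hm
        have h4 := hb i m' hm'
        constructor <;> omega
      exact mul_le_mul ht h2 (abs_nonneg _) hs0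
    have h2 : |wt a w m - wt a w m'| ≤ 2 * (Nat.sqrt p * D) := by
      have h3 : wt a w m - wt a w m' = (a * m 0 - a * m' 0) + (w * m 1 - w * m' 1) := by
        rw [wt, wt]; ring
      rw [h3]
      refine (abs_add_le _ _).trans ?_
      linarith [h1 a 0 ha, h1 w 1 hw]
    refine lt_of_le_of_lt h2 ?_
    have hpD' : 4 * (D : ℤ) ^ 2 < p := by
      have h5 : 64 * ((D : ℤ) + 1) ^ 2 ≤ p := by exact_mod_cast hH.large
      nlinarith [Int.natCast_nonneg D]
    by_contra hcon
    push Not at hcon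
    have hp0 : (0 : ℤ) < p := by exact_mod_cast hp.pos
    nlinarith [mul_le_mul hcon hcon hp0.le (by positivity : (0 : ℤ) ≤ 2 * (Nat.sqrt p * D)),
      mul_le_mul_of_nonneg_left hs (by positivity : (0 : ℤ) ≤ 4 * (D : ℤ) ^ 2)]
  have hpart := fun e => part_mem hQ hp hpQ hstab' hHQ hwt e
  have hev : ∀ᶠ s : S in (U : Filter S), ∀ e ∈ H.support.image (wt a w),
      v (aeval ![s.1.1, s.1.2] (part a w e H)) < 1 := by
    rw [Filter.eventually_all_finset]
    exact fun e _ => hpart e
  obtain ⟨s, hs⟩ := hev.exists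
  exact false_of_parts hH.noCoset (hz1 s.1 s.2) (hz2 s.1 s.2) haw hs

end Pool.Agent.Helper20.NB
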