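import Mathlib

/-! # Derivations over a field of constants -/

namespace Pool.Agent.Helper20.NB

open IntermediateField

/-- a finitely generated field extension which is not algebraic has a nonzero derivation -/
theorem exists_derivation_of_not_integral {k F : Type*} [Field k] [Field F] [Algebra k F]
    [Algebra.EssFiniteType k F] {x : F} (hx : ¬ IsIntegral k x) : ∃ δ : Derivation k F F, δ ≠ 0 := by
  by_contra hcon
  push Not at hcon
  have h1 : Subsingleton (Ω[F⁄k]) := by
    refine ⟨fun a b => ?_⟩
    rw [← sub_eq_zero, ← Module.forall_dual_apply_eq_zero_iff F]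
    intro φ
    have h2 := hcon ((KaehlerDifferential.linearMapEquivDerivation k F) φ)
    have h3 : φ = 0 := by
      apply (KaehlerDifferential.linearMapEquivDerivation k F).injective
      rw [h2, map_zero]
    rw [h3, LinearMap.zero_apply]
  have h2 : Algebra.FormallyUnramified k F := ⟨h1⟩
  have h3 : Algebra.IsSeparable k F := Algebra.FormallyUnramified.isSeparable k F
  exact hx (Algebra.IsSeparable.isIntegral k x)

/-- a derivation is a derivation over the prime field -/
def primeDeriv (p : ℕ) {k F : Type*} [Field k] [Field F] [Algebra k F] [Algebra (ZMod p) F]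
    (δ : Derivation k F F) : Derivation (ZMod p) F F :=
  Derivation.mk' (AddMonoidHom.toZModLinearMap p (δ : F →ₗ[k] F).toAddMonoidHom) fun a b => δ.leibniz a b

lemma primeDeriv_apply (p : ℕ) {k F : Type*} [Field k] [Field F] [Algebra k F] [Algebra (ZMod p) F]
    (δ : Derivation k F F) (z : F) : primeDeriv p δ z = δ z := rfl

/-- a derivation of `k(x, y)` which does not kill both `x` and `y` -/
theorem exists_derivation_adjoin {k K : Type*} [Field k] [Field K] [Algebra k K] {x y : K}
    (h : ¬ (IsIntegral k x ∧ IsIntegral k y)) :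
    ∃ δ : Derivation k (adjoin k {x, y}) (adjoin k {x, y}),
      ¬ (δ ⟨x, subset_adjoin k _ (by simp)⟩ = 0 ∧ δ ⟨y, subset_adjoin k _ (by simp)⟩ = 0) := by
  have hess : Algebra.EssFiniteType k (adjoin k {x, y}) := by
    rw [IntermediateField.essFiniteType_iff]
    exact fg_adjoin_of_finite (Set.toFinite _)
  set x' : adjoin k {x, y} := ⟨x, subset_adjoin k _ (by simp)⟩ with hx'
  set y' : adjoin k {x, y} := ⟨y, subset_adjoin k _ (by simp)⟩ with hy'
  have hint : ∀ z : adjoin k {x, y}, IsIntegral k z ↔ IsIntegral k (z : K) := fun z =>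
    (isIntegral_algebraMap_iff (algebraMap (adjoin k {x, y}) K).injective (R := k) (x := z)).symm
  obtain ⟨δ, hδ⟩ : ∃ δ : Derivation k (adjoin k {x, y}) (adjoin k {x, y}), δ ≠ 0 := by
    by_cases hxi : IsIntegral k x
    · have hyi : ¬ IsIntegral k y := fun hy => h ⟨hxi, hy⟩
      exact exists_derivation_of_not_integral (x := y') (by rw [hint]; exact hyi)
    · exact exists_derivation_of_not_integral (x := x') (by rw [hint]; exact hxi)
  refine ⟨δ, ?_⟩
  rintro ⟨h1, h2⟩
  apply hδ
  ext z
  obtain ⟨z, hz⟩ := z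
  induction hz using IntermediateField.adjoin_induction with
  | mem z hz =>
    rcases hz with rfl | hz
    · rw [h1]; rfl
    · rw [Set.mem_singleton_iff] at hz
      subst hz
      rw [h2]; rfl
  | algebraMap c =>
    have : δ (algebraMap k (adjoin k {x, y}) c) = 0 := Derivation.map_algebraMap δ c
    exact congrArg Subtype.val this
  | add a b ha hb iha ihb =>
    have e : (⟨a + b, add_mem ha hb⟩ : adjoin k {x, y}) = ⟨a, ha⟩ + ⟨b, hb⟩ := rfl
    have iha' : δ ⟨a, ha⟩ = 0 := Subtype.ext iha
    have ihb' : δ ⟨b, hb⟩ = 0 := Subtype.ext ihb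
    rw [e, map_add, iha', ihb', add_zero]
    rfl
  | inv a ha iha =>
    have iha' : δ ⟨a, ha⟩ = 0 := Subtype.ext iha
    have e : (⟨a⁻¹, inv_mem ha⟩ : adjoin k {x, y}) = (⟨a, ha⟩ : adjoin k {x, y})⁻¹ := rfl
    rw [e, Derivation.leibniz_inv, iha', smul_zero]
    rfl
  | mul a b ha hb iha ihb =>
    have e : (⟨a * b, mul_mem ha hb⟩ : adjoin k {x, y}) = ⟨a, ha⟩ * ⟨b, hb⟩ := rfl
    have iha' : δ ⟨a, ha⟩ = 0 := Subtype.ext iha
    have ihb' : δ ⟨b, hb⟩ = 0 := Subtype.ext ihb
    rw [e, Derivation.leibniz, iha', ihb', smul_zero, smul_zero, add_zero]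
    rfl

end Pool.Agent.Helper20.NB
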