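import Pool.Agent.Helper20.NB.UnifB

/-! # The three cases for curves near a good curve -/

open MvPolynomial Finset

namespace Pool.Agent.Helper20.NB
open Pool.Agent.Helper11.ZP Pool.Agent.Helper11.ZU Pool.Agent.Helper20.ZD Pool.Agent.Helper11.LC
  Pool.Agent.Helper69.DL Pool.Agent.Helper36.DL Pool.Agent.Helper20.DL Pool.Agent.Helper22.DL

variable {n : ℕ} {v : AbsoluteValue ℂ ℝ} {p m M : ℕ} {lam a b c : Fin n → ℂ}

lemma LocalNear.localRel {V : Set (Fin n → ℂ)} (h : LocalNear v p V) : LocalRel v p V := by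
  intro a b hab hle
  obtain ⟨H, W, h1, h2, -⟩ := h.rel a b (fun i => (hle i).1) (fun i => (hle i).2) hab
  exact ⟨H, h1, h2⟩

/-- the residues of rational parameters -/
lemma base_of_nat (hv : IsNonarchimedean v) (hp : p.Prime) (hvp : v (p : ℂ) < 1) {q r : Fin n → ℕ}
    (hq : ∀ i, v (q i : ℂ) = 1) (hr : ∀ i, v (r i : ℂ) ≤ v (p : ℂ)) :
    Base v p (p - 1) (fun i => (q i : ℂ)) (fun i => (r i : ℂ)) := by
  refine ⟨?_, ?_, hq, fun i => ?_, hr⟩
  · have := hp.one_lt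
    omega
  · rw [Nat.coprime_comm, Nat.Prime.coprime_iff_not_dvd hp]
    intro h
    have h1 := Nat.le_of_dvd (by have := hp.one_lt; omega) h
    have := hp.pos
    omega
  · have hT := tame_rat hv hp hvp (μ := (q i : ℚ)) (by push_cast; exact hq i)
    have h1 := hT.frob
    push_cast at h1
    exact near_fermat hp (hq i) h1

/-- **case B**, uniformly -/
theorem localNear_B (hv : IsNonarchimedean v) (hp : p.Prime) (hvp : v (p : ℂ) < 1) {V : Set (Fin n → ℂ)}
    (hloc : LocalNear v p V) : UnifB v p V := by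
  classical
  have hvp0 : 0 < v (p : ℂ) := (AbsoluteValue.pos_iff v).2 (by exact_mod_cast hp.ne_zero)
  have hsq : v (p : ℂ) ^ 2 < v (p : ℂ) := by
    rw [pow_two]
    exact mul_lt_of_lt_one_left hvp0 hvp
  have h1 : ∀ s : Fin n → Fin (p ^ 2) × Fin (p ^ 2), ∃ B : ℕ,
      Base v p (p - 1) (fun i => (((s i).1 : ℕ) : ℂ)) (fun i => (((s i).2 : ℕ) : ℂ)) →
      ∀ (m : ℕ) (lam a : Fin n → ℂ), Cls v p (fun i => (((s i).1 : ℕ) : ℂ)) (fun i => (((s i).2 : ℕ) : ℂ)) m lam a →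
      ∀ z ∈ V, ∀ (i j k l : Fin n) (N N' : ℕ),
      v (z i) = 1 → v (z j) = 1 → v (z k) = 1 → v (z l) = 1 → i ≠ j → k ≠ l → l ≠ i → l ≠ j →
        CyclicIsog N (lam i * z i + a i) (lam j * z j + a j) →
          CyclicIsog N' (lam k * z k + a k) (lam l * z l + a l) → N' ≤ B := by
    intro s
    by_cases hs : Base v p (p - 1) (fun i => (((s i).1 : ℕ) : ℂ)) (fun i => (((s i).2 : ℕ) : ℂ))
    · obtain ⟨B, hB⟩ := classB hv hp hvp hloc hs
      exact ⟨B, fun _ => hB⟩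
    · exact ⟨0, fun h => absurd h hs⟩
  choose B hB using h1
  refine ⟨univ.sup B, fun m lam a h z hz i j k l N N' => ?_⟩
  -- the class
  choose q hq1 hq2 using fun i => (h.lam_mem i).exists_lt hv hp 2
  choose r hr1 hr2 using fun i => (h.a_mem i).exists_lt hv hp 2
  have hqv : ∀ i, v (q i : ℂ) = 1 := fun i => by
    rw [← h.lam_one i]
    refine v_eq_of_sub_lt hv ?_
    rw [h.lam_one i, v_sub_comm]
    exact (hq2 i).trans_lt (hsq.trans hvp)
  have hrv : ∀ i, v (r i : ℂ) ≤ v (p : ℂ) := fun i => by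
    rw [show (r i : ℂ) = (p : ℂ) ^ m * a i - ((p : ℂ) ^ m * a i - r i) by ring]
    exact (v_sub_le hv _ _).trans (max_le (h.a_le i) ((hr2 i).trans hsq.le))
  set s : Fin n → Fin (p ^ 2) × Fin (p ^ 2) := fun i => (⟨q i, hq1 i⟩, ⟨r i, hr1 i⟩) with hs
  have hbase : Base v p (p - 1) (fun i => (((s i).1 : ℕ) : ℂ)) (fun i => (((s i).2 : ℕ) : ℂ)) :=
    base_of_nat hv hp hvp hqv hrv
  have hcls : Cls v p (fun i => (((s i).1 : ℕ) : ℂ)) (fun i => (((s i).2 : ℕ) : ℂ)) m lam a :=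
    ⟨h.one_le, fun i => (hq2 i).trans_lt hsq, fun i => (hr2 i).trans_lt hsq⟩
  intro h1 h2 h3 h4 h5 h6 h7 h8 h9 h10
  exact (hB s hbase m lam a hcls z hz i j k l N N' h1 h2 h3 h4 h5 h6 h7 h8 h9 h10).trans
    (Finset.le_sup (mem_univ s))

/-- **the three cases** for `V`, uniformly in the affine maps -/
theorem localNear_unif (hv : IsNonarchimedean v) (hp : p.Prime) (hvp : v (p : ℂ) < 1) {V : Set (Fin n → ℂ)}
    (hloc : LocalNear v p V) : UnifA v p V ∧ UnifB v p V ∧ UnifC v p V := by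
  refine ⟨localA hv hp hvp hloc.localRel, localNear_B hv hp hvp hloc, localC hv hp hvp hloc.localRel ?_⟩
  intro z hz i j hi hj
  by_contra hne
  rcases hloc.corner z hz i j hne with h1 | h1
  · exact hi h1
  · exact hj h1

end Pool.Agent.Helper20.NB
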