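import Pool.Agent.Helper20.DL.Near
import Pool.Agent.Helper20.NB.Core
import Pool.Agent.Helper20.DL.CaseC

/-! # Roots of unity near a number -/

open Finset

namespace Pool.Agent.Helper20.NB
open Pool.Agent.Helper20.ZD Pool.Agent.Helper20.DL Pool.Agent.Helper11.LC

variable {v : AbsoluteValue ℂ ℝ}

lemma v_coprime (hv : IsNonarchimedean v) {p : ℕ} (hp : p.Prime) (hvp : v (p : ℂ) < 1) {M : ℕ}
    (hMp : M.Coprime p) : v (M : ℂ) = 1 := by
  have h1 : ¬ (p : ℤ) ∣ (M : ℤ) := by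
    intro h
    have h2 : p ∣ M := by exact_mod_cast h
    exact (Nat.Prime.coprime_iff_not_dvd hp).1 hMp.symm h2
  have := v_int_one hv hp hvp h1
  exact_mod_cast this

/-- a power prime to `p` near one -/
lemma v_sub_one_le_of_pow (hv : IsNonarchimedean v) {p : ℕ} (hp : p.Prime) (hvp : v (p : ℂ) < 1) {M : ℕ}
    (hMp : M.Coprime p) {u : ℂ} (hu : v (u - 1) < 1) : v (u - 1) = v (u ^ M - 1) := by
  have hu1 : v u = 1 := by
    rw [show u = 1 + (u - 1) by ring, v_add_eq hv (by rw [map_one]; exact hu), map_one]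
  have h1 : v (∑ i ∈ range M, u ^ i) = 1 := by
    have e : ∑ i ∈ range M, u ^ i = (M : ℂ) + ∑ i ∈ range M, (u ^ i - 1) := by
      rw [sum_sub_distrib, sum_const, card_range, nsmul_eq_mul, mul_one]
      ring
    have h2 : v (∑ i ∈ range M, (u ^ i - 1)) ≤ v (u - 1) := by
      refine val_sum_le hv _ _ (v.nonneg _) fun i _ => ?_
      exact val_pow_sub_one hv hu1.le i
    rw [e, v_add_eq hv (by rw [v_coprime hv hp hvp hMp]; exact h2.trans_lt hu), v_coprime hv hp hvp hMp]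
  have h3 := mul_geom_sum u M
  rw [← h3, map_mul, h1, mul_one]

/-- a root of unity near a number -/
lemma teich (hv : IsNonarchimedean v) {p : ℕ} (hp : p.Prime) (hvp : v (p : ℂ) < 1) {M : ℕ} (hM : 0 < M)
    (hMp : M.Coprime p) {x : ℂ} (h : v (x ^ M - 1) ≤ v (p : ℂ)) :
    ∃ τ : ℂ, τ ^ M = 1 ∧ v (x - τ) ≤ v (p : ℂ) := by
  set P : Polynomial ℂ := Polynomial.X ^ M - Polynomial.C 1 with hP
  have hPm : P.Monic := Polynomial.monic_X_pow_sub_C 1 hM.ne'
  have hPe : ∀ y, P.eval y = y ^ M - 1 := fun y => by rw [hP]; simp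
  obtain ⟨τ, hτ, -, hτ1⟩ := root_near (v := v) (P := P) (D := P.natDegree) le_rfl (x := x) (L := 1)
    (δ := v (P.eval x)) (by rw [hPm.leadingCoeff, map_one]) one_pos le_rfl (by rw [hPe]; exact h.trans_lt hvp)
  have hτM : τ ^ M = 1 := by
    have := (Polynomial.mem_roots hPm.ne_zero).1 hτ
    rw [Polynomial.IsRoot, hPe] at this
    exact sub_eq_zero.1 this
  have hτv : v τ = 1 := val_root hM hτM
  have hτ0 : τ ≠ 0 := by
    rintro rfl
    rw [map_zero] at hτv
    exact zero_ne_one hτv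
  refine ⟨τ, hτM, ?_⟩
  have e : x - τ = (x / τ - 1) * τ := by field_simp
  have h1 : v (x / τ - 1) = v (x - τ) := by rw [e, map_mul, hτv, mul_one]
  rw [← h1, v_sub_one_le_of_pow hv hp hvp hMp (by rw [h1]; exact hτ1), div_pow, hτM, div_one]
  exact h

end Pool.Agent.Helper20.NB
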