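import Pool.Agent.Helper20.NB.ClassB

/-! # Case B for a class of affine maps: the bound -/

open MvPolynomial Finset

namespace Pool.Agent.Helper20.NB
open Pool.Agent.Helper11.ZP Pool.Agent.Helper11.ZU Pool.Agent.Helper20.ZD Pool.Agent.Helper11.LC
  Pool.Agent.Helper69.DL Pool.Agent.Helper36.DL Pool.Agent.Helper20.DL Pool.Agent.Helper22.DL
  Pool.Agent.Helper81.DL

variable {n : ℕ} {v : AbsoluteValue ℂ ℝ} {p m M : ℕ} {lam a b c : Fin n → ℂ}

/-- the roots of unity and the constants of the first order -/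
lemma exists_teich (hv : IsNonarchimedean v) (hp : p.Prime) (hvp : v (p : ℂ) < 1) (hb : Base v p M b c) :
    ∃ τ δ : Fin n → ℂ, (∀ i, τ i ^ M = 1) ∧ (∀ i, v (τ i) = 1) ∧ (∀ i, v (δ i) ≤ 1) ∧
      ∀ i, b i = τ i * (1 + p * δ i) := by
  have hp0 : (p : ℂ) ≠ 0 := by exact_mod_cast hp.ne_zero
  have hvp0 : 0 < v (p : ℂ) := (AbsoluteValue.pos_iff v).2 hp0
  have h1 : ∀ i, ∃ τ : ℂ, τ ^ M = 1 ∧ v (b i - τ) ≤ v (p : ℂ) := fun i =>
    teich hv hp hvp hb.pos hb.coprime (hb.root i)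
  choose τ hτ hbτ using h1
  have hτ1 : ∀ i, v (τ i) = 1 := fun i => val_root hb.pos (hτ i)
  have hτ0 : ∀ i, τ i ≠ 0 := fun i => by
    rw [← AbsoluteValue.ne_zero_iff v, hτ1 i]
    exact one_ne_zero
  refine ⟨τ, fun i => (b i - τ i) / (τ i * p), hτ, hτ1, fun i => ?_, fun i => ?_⟩
  · rw [map_div₀, map_mul, hτ1, one_mul, div_le_one hvp0]
    exact hbτ i
  · have := hτ0 i
    field_simp
    ring

lemma single_diff_indep' {e k l : Fin n} (hkl : k ≠ l) (he : e = k ∨ e = l) {s : ℤ} (hs : s ≠ 0) (x y : ℤ)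
    (h : ∀ q, x * (Pi.single e s : Fin n → ℤ) q + y * diff k l q = 0) : x = 0 ∧ y = 0 := by
  rcases he with rfl | rfl
  · exact single_diff_indep hkl hkl hs x y h
  · have h1 := h k
    rw [Pi.single_eq_of_ne hkl] at h1
    have h2 : diff k e k = 1 := by simp [diff, hkl]
    rw [h2] at h1
    have hy : y = 0 := by linarith
    subst hy
    have h3 := h e
    rw [Pi.single_eq_same, zero_mul, add_zero] at h3
    exact ⟨(mul_eq_zero.1 h3).resolve_right hs, rfl⟩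

/-- **case B** for a class of affine maps and one quadruple of indices -/
theorem classB_one (hv : IsNonarchimedean v) (hp : p.Prime) (hvp : v (p : ℂ) < 1) {V : Set (Fin n → ℂ)}
    (hloc : LocalNear v p V) (hb : Base v p M b c) {i j k l : Fin n} (hij : i ≠ j) (hkl : k ≠ l)
    (hli : l ≠ i) (hlj : l ≠ j) :
    ∃ B : ℕ, ∀ (m : ℕ) (lam a : Fin n → ℂ), Cls v p b c m lam a → ∀ z ∈ V, ∀ (N N' : ℕ), v (z i) = 1 →
      v (z j) = 1 → v (z k) = 1 → v (z l) = 1 → CyclicIsog N (lam i * z i + a i) (lam j * z j + a j) →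
        CyclicIsog N' (lam k * z k + a k) (lam l * z l + a l) → N' ≤ B := by
  classical
  have hp0 : (p : ℂ) ≠ 0 := by exact_mod_cast hp.ne_zero
  have hvp0 : 0 < v (p : ℂ) := (AbsoluteValue.pos_iff v).2 hp0
  obtain ⟨τ, δ, hτM, hτ, hδ, hτδ⟩ := exists_teich hv hp hvp hb
  -- the main relation
  obtain ⟨H, W, hH, hmod, hW, hWv, hWr⟩ := hloc.rel (diff i j) (diff k l) (abs_diff_le i j) (abs_diff_le k l)
    (diff_indep hij hkl hli hlj)
  set q : Fin 4 → Fin n := ![i, j, k, l] with hq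
  have hd0 : ∀ t : Fin n, (∀ r, q r ≠ t) → diff i j t = 0 ∧ diff k l t = 0 := by
    intro t ht
    have h0 : i ≠ t := ht 0
    have h1 : j ≠ t := ht 1
    have h2 : k ≠ t := ht 2
    have h3 : l ≠ t := ht 3
    unfold diff
    simp [h0.symm, h1.symm, h2.symm, h3.symm]
  obtain ⟨W₁, hW₁⟩ := exists_transport hv q W hW fun t ht => hWv t (hd0 t ht).1 (hd0 t ht).2
  -- the other relations
  have hG : ∀ s : Fin 4 × Bool, ∃ G : MvPolynomial (Fin 2) ℤ, GoodRel v p G ∧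
      HoldsMod v p G V (Pi.single (q s.1) (sgn s.2)) (if s.1 < 2 then diff i j else diff k l) := by
    rintro ⟨r, s⟩
    by_cases hr : r < 2
    · obtain ⟨G, -, h1, h2, -⟩ := hloc.rel (Pi.single (q r) (sgn s)) (diff i j) (abs_single (sgn_eq s))
        (abs_diff_le i j) (single_diff_indep' hij (by
          fin_cases r
          · exact Or.inl rfl
          · exact Or.inr rfl
          · exact absurd hr (by decide)
          · exact absurd hr (by decide)) (sgn_ne s))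
      exact ⟨G, h1, by rw [if_pos hr]; exact h2⟩
    · obtain ⟨G, -, h1, h2, -⟩ := hloc.rel (Pi.single (q r) (sgn s)) (diff k l) (abs_single (sgn_eq s))
        (abs_diff_le k l) (single_diff_indep' hkl (by
          fin_cases r
          · exact absurd (by decide) hr
          · exact absurd (by decide) hr
          · exact Or.inl rfl
          · exact Or.inr rfl) (sgn_ne s))
      exact ⟨G, h1, by rw [if_neg hr]; exact h2⟩
  choose G hGg hGm using hG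
  set jj : Fin 4 × Bool → Fin 2 := fun s => if s.1 < 2 then 0 else 1 with hjj
  -- the first order terms
  have hκ : ∀ κ : ℂ, v κ ≤ 1 → ∃ B : ℕ, ∀ (x y : ℂ) (u : Fin 4 × Bool → ℂ) (ζ₁ ζ₂ : ℂ) (g₁ g₂ : ℕ), 0 < g₁ →
      0 < g₂ → IsPrimitiveRoot ζ₁ g₁ → IsPrimitiveRoot ζ₂ g₂ → v x ≤ 1 → v y ≤ 1 → (∀ i, v (u i) ≤ 1) →
      (∀ i, v (ev (G i) (u i) (![x, y] (jj i))) < 1) → v (ev H x y - p * wev hv W₁ u x y) < v (p : ℂ) →
      v (x - ζ₁ * (1 + p * ((δ j - δ i) + (bet p b c κ j * u (1, true) + (-bet p b c κ i) * u (0, true))))) <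
        v (p : ℂ) →
      v (y - ζ₂ * (1 + p * ((δ l - δ k) + (bet p b c κ l * u (3, true) + (-bet p b c κ k) * u (2, true))))) <
        v (p : ℂ) → g₁ ≤ B ∧ g₂ ≤ B := by
    intro κ hκ
    have hsub : ∀ {s t : ℂ}, v s ≤ 1 → v t ≤ 1 → s - t ∈ ball hv := fun {s t} hs ht =>
      (v_sub_le hv _ _).trans (max_le hs ht)
    have hneg : ∀ {s : ℂ}, v s ≤ 1 → -s ∈ ball hv := fun {s} hs => by
      rw [mem_ball, map_neg_eq_map]
      exact hs
    obtain ⟨B, hB⟩ := torsion_near hv hp hvp hH hGg jj W₁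
      (spoly hv ⟨δ j - δ i, hsub (hδ j) (hδ i)⟩ ⟨bet p b c κ j, v_bet hv hvp0 hb hκ j⟩
        ⟨-bet p b c κ i, hneg (v_bet hv hvp0 hb hκ i)⟩ 0 1)
      (spoly hv ⟨δ l - δ k, hsub (hδ l) (hδ k)⟩ ⟨bet p b c κ l, v_bet hv hvp0 hb hκ l⟩
        ⟨-bet p b c κ k, hneg (v_bet hv hvp0 hb hκ k)⟩ 2 3)
    refine ⟨B, fun x y u ζ₁ ζ₂ g₁ g₂ h1 h2 h3 h4 h5 h6 h7 h8 h9 h10 h11 => ?_⟩
    refine hB x y u ζ₁ ζ₂ g₁ g₂ h1 h2 h3 h4 h5 h6 h7 h8 h9 ?_ ?_
    · rw [wev_spoly]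
      exact h10
    · rw [wev_spoly]
      exact h11
  obtain ⟨B₁, hB₁⟩ := hκ (kap 1) (v_kap hv 1)
  obtain ⟨B₂, hB₂⟩ := hκ (kap 2) (v_kap hv 2)
  refine ⟨(max B₁ B₂ * M) ^ 2, ?_⟩
  intro m lam a hcls z hz N N' hi hj hk hl' hN hN'
  have hz0 : ∀ {r}, v (z r) = 1 → z r ≠ 0 := fun {r} hr h0 => by
    rw [h0, map_zero] at hr
    exact zero_ne_one hr
  have hqu : ∀ r, v (z (q r)) = 1 := by
    intro r
    fin_cases r
    · exact hi
    · exact hj
    · exact hk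
    · exact hl'
  have hdu : ∀ t : Fin n, v (z t) = 1 ∨ (diff i j t = 0 ∧ diff k l t = 0) := by
    intro t
    by_cases ht : ∃ r, q r = t
    · obtain ⟨r, rfl⟩ := ht
      exact Or.inl (hqu r)
    · push Not at ht
      exact Or.inr (hd0 t ht)
  obtain ⟨g₁, ζ₁, a1, a2, a3, a4⟩ := ratio_final hv hvp0 hvp hb hcls hτ hδ hτδ hi hj hN
  obtain ⟨g₂, ζ₂, b1, b2, b3, b4⟩ := ratio_final hv hvp0 hvp hb hcls hτ hδ hτδ hk hl' hN'
  -- the roots of unity
  have hroot : ∀ {s t : Fin n} {ζ : ℂ} {g : ℕ}, 0 < g → IsPrimitiveRoot ζ g →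
      0 < orderOf (τ s / τ t * ζ) ∧ g ≤ orderOf (τ s / τ t * ζ) * M := by
    intro s t ζ g hg hζ
    have hpow : (τ s / τ t * ζ) ^ (g * M) = 1 := by
      rw [mul_pow, div_pow, mul_comm g M, pow_mul, pow_mul, pow_mul, hτM, hτM, one_pow, div_one, one_mul,
        ← pow_mul, mul_comm M g, pow_mul, hζ.pow_eq_one, one_pow]
    have h1 : 0 < orderOf (τ s / τ t * ζ) := orderOf_pos_iff.2 (isOfFinOrder_iff_pow_eq_one.2
      ⟨g * M, Nat.mul_pos hg hb.pos, hpow⟩)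
    refine ⟨h1, Nat.le_of_dvd (Nat.mul_pos h1 hb.pos) (hζ.dvd_of_pow_eq_one _ ?_)⟩
    have hst : τ s / τ t ≠ 0 := by
      rw [← AbsoluteValue.ne_zero_iff v, map_div₀, hτ, hτ, div_one]
      exact one_ne_zero
    have h2 : (τ s / τ t) ^ (orderOf (τ s / τ t * ζ) * M) = 1 := by
      rw [mul_comm, pow_mul, div_pow, hτM, hτM, div_one, one_pow]
    have h3 : (τ s / τ t * ζ) ^ (orderOf (τ s / τ t * ζ) * M) = 1 := by
      rw [pow_mul, pow_orderOf_eq_one, one_pow]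
    rw [mul_pow, h2, one_mul] at h3
    exact h3
  obtain ⟨c1, -⟩ := hroot (s := j) (t := i) a1 a3
  obtain ⟨c2, c3⟩ := hroot (s := l) (t := k) b1 b3
  set u : Fin 4 × Bool → ℂ := fun s => z (q s.1) ^ sgn s.2 with hu
  have huv : ∀ s, v (u s) = 1 := by
    intro s
    rw [hu]
    change v (z (q s.1) ^ sgn s.2) = 1
    rw [map_zpow₀, hqu, one_zpow]
  have hut : ∀ r, u (r, true) = (z (q r))⁻¹ := fun r => zpow_neg_one _
  have hx1 : v (z i / z j) = 1 := by rw [map_div₀, hi, hj, div_one]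
  have hy1 : v (z k / z l) = 1 := by rw [map_div₀, hk, hl', div_one]
  have hGz : ∀ s, v (ev (G s) (u s) (![z i / z j, z k / z l] (jj s))) < 1 := by
    rintro ⟨r, s⟩
    have h1 := holdsMod_apply (hGm (r, s)) hz (fun t => by
      by_cases ht : v (z t) = 1
      · exact Or.inl ht
      · refine Or.inr ⟨?_, ?_⟩
        · refine Pi.single_eq_of_ne ?_ _
          rintro rfl
          exact ht (hqu r)
        · rcases hdu t with h | h
          · exact absurd h ht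
          · split_ifs
            · exact h.1
            · exact h.2)
    rw [prod_single] at h1
    by_cases hr : r < 2
    · rw [if_pos hr, prod_diff z (hz0 hi) (hz0 hj)] at h1
      have h2 : jj (r, s) = 0 := if_pos hr
      rw [h2]
      exact h1.trans_lt hvp
    · rw [if_neg hr, prod_diff z (hz0 hk) (hz0 hl')] at h1
      have h2 : jj (r, s) = 1 := if_neg hr
      rw [h2]
      exact h1.trans_lt hvp
  have hHz : v (ev H (z i / z j) (z k / z l) - p * wev hv W₁ u (z i / z j) (z k / z l)) < v (p : ℂ) := by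
    have h1 := hWr z hz hdu
    rw [prod_diff z (hz0 hi) (hz0 hj), prod_diff z (hz0 hk) (hz0 hl')] at h1
    rw [hW₁]
    exact h1
  have hcon : ∀ B' : ℕ, (∀ (x y : ℂ) (u : Fin 4 × Bool → ℂ) (ζ₁ ζ₂ : ℂ) (g₁ g₂ : ℕ), 0 < g₁ →
      0 < g₂ → IsPrimitiveRoot ζ₁ g₁ → IsPrimitiveRoot ζ₂ g₂ → v x ≤ 1 → v y ≤ 1 → (∀ i, v (u i) ≤ 1) →
      (∀ i, v (ev (G i) (u i) (![x, y] (jj i))) < 1) → v (ev H x y - p * wev hv W₁ u x y) < v (p : ℂ) →
      v (x - ζ₁ * (1 + p * ((δ j - δ i) + (bet p b c (kap m) j * u (1, true) +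
        (-bet p b c (kap m) i) * u (0, true))))) < v (p : ℂ) →
      v (y - ζ₂ * (1 + p * ((δ l - δ k) + (bet p b c (kap m) l * u (3, true) +
        (-bet p b c (kap m) k) * u (2, true))))) < v (p : ℂ) → g₁ ≤ B' ∧ g₂ ≤ B') → B' ≤ max B₁ B₂ →
      N' ≤ (max B₁ B₂ * M) ^ 2 := by
    intro B' hB' hle
    obtain ⟨-, h2⟩ := hB' (z i / z j) (z k / z l) u _ _ _ _ c1 c2 (IsPrimitiveRoot.orderOf _)
      (IsPrimitiveRoot.orderOf _) hx1.le hy1.le (fun s => (huv s).le) hGz hHz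
      (by rw [hut, hut]; exact a4) (by rw [hut, hut]; exact b4)
    rw [b2]
    exact Nat.pow_le_pow_left (c3.trans (Nat.mul_le_mul_right M (h2.trans hle))) 2
  by_cases hm : m = 1
  · subst hm
    exact hcon B₁ hB₁ (le_max_left _ _)
  · have h1 : kap m = kap 2 := by
      unfold kap
      rw [if_neg hm, if_neg (by norm_num)]
    refine hcon B₂ ?_ (le_max_right _ _)
    rw [h1]
    exact hB₂

/-- **case B** for a class of affine maps -/
theorem classB (hv : IsNonarchimedean v) (hp : p.Prime) (hvp : v (p : ℂ) < 1) {V : Set (Fin n → ℂ)}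
    (hloc : LocalNear v p V) (hb : Base v p M b c) :
    ∃ B : ℕ, ∀ (m : ℕ) (lam a : Fin n → ℂ), Cls v p b c m lam a → ∀ z ∈ V, ∀ (i j k l : Fin n) (N N' : ℕ),
      v (z i) = 1 → v (z j) = 1 → v (z k) = 1 → v (z l) = 1 → i ≠ j → k ≠ l → l ≠ i → l ≠ j →
        CyclicIsog N (lam i * z i + a i) (lam j * z j + a j) →
          CyclicIsog N' (lam k * z k + a k) (lam l * z l + a l) → N' ≤ B := by
  classical
  have h2 : ∀ q : Fin n × Fin n × Fin n × Fin n, ∃ B : ℕ, q.1 ≠ q.2.1 → q.2.2.1 ≠ q.2.2.2 →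
      q.2.2.2 ≠ q.1 → q.2.2.2 ≠ q.2.1 →
      ∀ (m : ℕ) (lam a : Fin n → ℂ), Cls v p b c m lam a → ∀ z ∈ V, ∀ (N N' : ℕ), v (z q.1) = 1 →
        v (z q.2.1) = 1 → v (z q.2.2.1) = 1 → v (z q.2.2.2) = 1 →
          CyclicIsog N (lam q.1 * z q.1 + a q.1) (lam q.2.1 * z q.2.1 + a q.2.1) →
            CyclicIsog N' (lam q.2.2.1 * z q.2.2.1 + a q.2.2.1) (lam q.2.2.2 * z q.2.2.2 + a q.2.2.2) →
              N' ≤ B := by
    rintro ⟨i, j, k, l⟩
    by_cases h : i ≠ j ∧ k ≠ l ∧ l ≠ i ∧ l ≠ j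
    · obtain ⟨B, hB⟩ := classB_one hv hp hvp hloc hb h.1 h.2.1 h.2.2.1 h.2.2.2
      exact ⟨B, fun _ _ _ _ => hB⟩
    · exact ⟨0, fun a b c d => absurd ⟨a, b, c, d⟩ h⟩
  choose B hB using h2
  refine ⟨univ.sup B, fun m lam a h z hz i j k l N N' hi hj hk hl' hij hkl hli hlj hN hN' => ?_⟩
  exact (hB (i, j, k, l) hij hkl hli hlj m lam a h z hz N N' hi hj hk hl' hN hN').trans
    (Finset.le_sup (mem_univ (i, j, k, l)))

end Pool.Agent.Helper20.NB
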